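import Mathlib
import Pool.Agent.Run7.h810.DF.Defs

/-!
# Monomials in critical values of Artin twists, classes of Galois extensions of a number field `F`

The definitions of the extensions `N` of `F`, of the representations of their Galois groups, of the
L-functions and of the resolvents are those of `Pool/Agent/Run7/h810/DF/Defs.lean`.
-/

set_option autoImplicit false

namespace Pool.Agent.Run7.h810.DW

open NumberField Pool.Agent.Run7.h810.DF

variable {F : Type} [Field F] [NumberField F]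

/-- The monomial `∏ f(m) ^ w(m)` in the values of `f` at finitely many points `m` (`f(m)` is the
leading coefficient, if `f` has a zero or a pole at `m`). For `w` the function with the value `1` at
`m` and `0` elsewhere it is the value `f(m)`. -/
noncomputable def mono (w : ℂ →₀ ℤ) (f : ℂ → ℂ) : ℂ := w.prod fun m a => val f m ^ a

/-- **Deligne's relation for `M ⊗ ρ`** and the monomial `w` in the values of its L-function, for an
embedding `e` of the coefficient field `C` of `M` and an automorphism `τ` of `ℂ`. `A e` and `B e σ`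
are the periods, `d σ` is the multiplicity of the eigenvalue `-1` of the complex conjugation `ρ(c_σ)`
for the real embeddings `σ` of `F`, and `r` is the exponent of the resolvent (for the value at one
critical integer `m` it is the number of the independent periods at an embedding `σ` of `F`: half the
rank of `M`, or the dimension of the `+1`- or the `-1`-part, if `M` has a middle Hodge type and `ρ` is
totally even or totally odd). -/
def Del {C : Type} [Field C] (w : ℂ →₀ ℤ) (r : ℤ) (t : Ideal (𝓞 F) → ℕ → C) (b : ℝ)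
    (A : (C →+* ℂ) → ℂ) (B : (C →+* ℂ) → (F →+* ℂ) → ℂ) (e : C →+* ℂ) (τ : ℂ ≃+* ℂ) {E : Ext F}
    {n : ℕ} (ρ : Rep E n) : Prop :=
  ∀ (Φ : (F →+* ℂ) → (E.N →+* ℂ)) (x : E.N) (d : (F →+* ℂ) → ℕ) (f f' : ℂ → ℂ), IsSys Φ →
    res Φ x ρ ≠ 0 → (∀ σ c, IsCC (Φ σ) c → chr ρ c = n - 2 * d σ) →
    (∀ σ, (¬ ∃ c : Gal E, IsCC (Φ σ) c) → d σ = 0) →
    IsL (fun p k => e (t p k)) b (chr ρ) f →
    IsL (fun p k => τ (e (t p k))) b (chr (conj τ ρ)) f' →
    τ (mono w f / (res Φ x ρ ^ r * A e ^ n * ∏ σ, B e σ ^ d σ)) =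
      mono w f' / (res Φ x (conj τ ρ) ^ r * A ((τ : ℂ →+* ℂ).comp e) ^ n *
        ∏ σ, B ((τ : ℂ →+* ℂ).comp e) σ ^ d σ)

/-- The relation for the quotient of the monomials for `M ⊗ ρ` and `M ⊗ ρ'`: `ρ` and `ρ'` have the
same dimension and the same behaviour at infinity, so that the periods of `M` cancel. -/
def Rel (w : ℂ →₀ ℤ) (r : ℤ) (t : Ideal (𝓞 F) → ℕ → ℂ) (b : ℝ) (τ : ℂ ≃+* ℂ) {E : Ext F} {n : ℕ}
    (ρ ρ' : Rep E n) : Prop :=
  ∀ (Φ : (F →+* ℂ) → (E.N →+* ℂ)) (x : E.N) (f₁ f₂ f₁' f₂' : ℂ → ℂ), IsSys Φ →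
    res Φ x ρ ≠ 0 → res Φ x ρ' ≠ 0 → IsL t b (chr ρ) f₁ → IsL t b (chr ρ') f₂ →
    IsL (fun p k => τ (t p k)) b (chr (conj τ ρ)) f₁' →
    IsL (fun p k => τ (t p k)) b (chr (conj τ ρ')) f₂' →
    τ (mono w f₁ / mono w f₂ / (res Φ x ρ / res Φ x ρ') ^ r) =
      mono w f₁' / mono w f₂' / (res Φ x (conj τ ρ) / res Φ x (conj τ ρ')) ^ r

/-- **The quotient relations for the subfields `K` of the extensions `N` of `F` in `𝒩`.** `K` is the
fixed field of the subgroup `H` of the Galois group of `N`, the characters `ψ`, `ψ'` of `K` have the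
same signature, `ρ` and `ρ'` are induced from `ψ` and `ψ'`, so that `L(s, M ⊗ ρ)` is `L(s, M_K ⊗ ψ)`,
for the base change `M_K` of `M` to `K`. No periods occur. -/
def Quo {C : Type} [Field C] (w : ℂ →₀ ℤ) (r : ℤ) (t : Ideal (𝓞 F) → ℕ → C) (b : ℝ)
    (𝒩 : Ext F → Prop) : Prop :=
  ∀ (e : C →+* ℂ) (τ : ℂ ≃+* ℂ) (E : Ext F), 𝒩 E → ∀ (H : Subgroup (Gal E)) (ψ ψ' : Gal E → ℂ)
    (n : ℕ) (ρ ρ' : Rep E n), Agree ψ ψ' → IsInd H ψ ρ → IsInd H ψ' ρ' →
      Con τ (fun p k => e (t p k)) b ρ ∧ Con τ (fun p k => e (t p k)) b ρ' ∧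
        Rel w r (fun p k => e (t p k)) b τ ρ ρ'

/-- **Deligne's relation for all Artin representations of the extensions `N` of `F` in `𝒩`**, for
the given periods `A`, `B σ`. -/
def DelAll {C : Type} [Field C] (w : ℂ →₀ ℤ) (r : ℤ) (t : Ideal (𝓞 F) → ℕ → C) (b : ℝ)
    (A : (C →+* ℂ) → ℂ) (B : (C →+* ℂ) → (F →+* ℂ) → ℂ) (𝒩 : Ext F → Prop) : Prop :=
  ∀ (e : C →+* ℂ) (τ : ℂ ≃+* ℂ) (E : Ext F), 𝒩 E → ∀ (n : ℕ) (ρ : Rep E n),
    Con τ (fun p k => e (t p k)) b ρ ∧ Del w r t b A B e τ ρ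

/-- **Deligne's relation for all Artin representations of the extensions `N` of `F` in `𝒩`**, for
some periods `A`, `B σ` of `M`. -/
def Deligne {C : Type} [Field C] (w : ℂ →₀ ℤ) (r : ℤ) (t : Ideal (𝓞 F) → ℕ → C) (b : ℝ)
    (𝒩 : Ext F → Prop) : Prop :=
  ∃ (A : (C →+* ℂ) → ℂ) (B : (C →+* ℂ) → (F →+* ℂ) → ℂ), (∀ e, A e ≠ 0) ∧ (∀ e σ, B e σ ≠ 0) ∧
    DelAll w r t b A B 𝒩

/-- `ρ` and `ρ'` have the same signature: the complex conjugations for the same embedding of `F`
have the same trace. -/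
def SameSig {E E' : Ext F} {n : ℕ} (ρ : Rep E n) (ρ' : Rep E' n) : Prop :=
  ∀ (φ : E.N →+* ℂ) (φ' : E'.N →+* ℂ) (c : Gal E) (c' : Gal E'),
    φ.comp (algebraMap F E.N) = φ'.comp (algebraMap F E'.N) → IsCC φ c → IsCC φ' c' →
      chr ρ c = chr ρ' c'

/-- **Deligne's relation for one linear character of `F` of every signature**, for the given periods
`A`, `B σ`. -/
def DelOne {C : Type} [Field C] (w : ℂ →₀ ℤ) (r : ℤ) (t : Ideal (𝓞 F) → ℕ → C) (b : ℝ)
    (A : (C →+* ℂ) → ℂ) (B : (C →+* ℂ) → (F →+* ℂ) → ℂ) (𝒩 : Ext F → Prop) : Prop :=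
  ∀ (E : Ext F), 𝒩 E → ∀ ρ : Rep E 1, ∃ (E' : Ext F) (ρ' : Rep E' 1), 𝒩 E' ∧ SameSig ρ ρ' ∧
    ∀ (e : C →+* ℂ) (τ : ℂ ≃+* ℂ), Del w r t b A B e τ ρ'

/-- All complex conjugations of the Galois group of `N` over `F` coincide; for a totally real field
`F` this says that `N` is totally real or a CM field. -/
def RealOrCM (E : Ext F) : Prop :=
  ∀ (φ φ' : E.N →+* ℂ) (c c' : Gal E), IsCC φ c → IsCC φ' c' → c = c'

/-- All complex conjugations of the Galois group of `N` over `F` are trivial; for a totally real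
field `F` this says that `N` is totally real. -/
def TotReal (E : Ext F) : Prop :=
  ∀ (φ : E.N →+* ℂ) (c : Gal E), IsCC φ c → c = 1

/-- **Classes of finite groups** which contain the trivial groups, the subgroups of the products of
two members, and the extensions of their members by groups of exponent two: for instance all groups,
the solvable groups, or the groups whose order has only prime divisors from a set that contains
two. -/
structure GrpClass (𝒞 : (G : Type) → [Group G] → Prop) : Prop where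
  one : ∀ (G : Type) [Group G] [Subsingleton G], 𝒞 G
  sub : ∀ (G G₁ G₂ : Type) [Group G] [Group G₁] [Group G₂] [Finite G] (f : G →* G₁) (f' : G →* G₂),
    (∀ g, f g = 1 → f' g = 1 → g = 1) → 𝒞 G₁ → 𝒞 G₂ → 𝒞 G
  two : ∀ (G G' : Type) [Group G] [Group G'] [Finite G'] (π : G' →* G), Function.Surjective π →
    (∀ g, π g = 1 → g * g = 1) → 𝒞 G → 𝒞 G'

end Pool.Agent.Run7.h810.DW
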