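import Mathlib
import Pool.Agent.Run7.h810.DW.Defs
import Pool.Agent.Run7.h810.DF.Fields

/-!
# Extensions by square roots and composita, with information on the Galois groups
-/

set_option autoImplicit false
set_option linter.unusedSectionVars false
set_option linter.unusedVariables false

namespace Pool.Agent.Run7.h810.DW

open NumberField NumberField.ComplexEmbedding Polynomial Pool.Agent.K4H74.ST
open Pool.Agent.Run7.h810.DF

variable {F : Type} [Field F] [NumberField F]

lemma numberField_of {N : Type} [Field N] [CharZero N] [Algebra F N] [FiniteDimensional F N] :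
    NumberField N := by
  have hfinQ : FiniteDimensional ℚ N := by
    let : Algebra ℚ N := DivisionRing.toRatAlgebra
    have : IsScalarTower ℚ F N := inferInstance
    exact FiniteDimensional.trans ℚ F N
  exact { to_charZero := inferInstance, to_finiteDimensional := hfinQ }

/-- adjoining square roots -/
theorem exists_sq_aux (N : Type) [Field N] [NumberField N] [Algebra F N] [IsGalois F N]
    (A : Finset N) (N' : Type) [Field N'] [Algebra F N'] [Algebra N N'] [IsScalarTower F N N']
    [CharZero N'] (hA : IsSplittingField N N'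
      ((∏ a ∈ A, (minpoly F a).comp (X ^ 2)).map (algebraMap F N))) :
    NumberField N' ∧ IsGalois F N' ∧
      (∀ a ∈ A, ∃ w : N', w * w = algebraMap N N' a) ∧
      ∀ g : N' ≃ₐ[F] N', (∀ x : N, g (algebraMap N N' x) = algebraMap N N' x) → g * g = 1 := by
  classical
  have hfin1 : FiniteDimensional F N := Module.Finite.of_restrictScalars_finite ℚ F N
  set P : F[X] := ∏ a ∈ A, (minpoly F a).comp (X ^ 2) with hP
  have hint : ∀ a : N, IsIntegral F a := fun a => (Algebra.IsAlgebraic.isAlgebraic a).isIntegral
  have hP0 : ∀ a : N, (minpoly F a).comp (X ^ 2) ≠ 0 := by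
    intro a h
    rw [comp_eq_zero_iff] at h
    rcases h with h | ⟨-, h⟩
    · exact minpoly.ne_zero (hint a) h
    · have h1 := congrArg natDegree h
      rw [natDegree_X_pow, natDegree_C] at h1
      omega
  have hPne : P ≠ 0 := Finset.prod_ne_zero_iff.mpr fun a _ => hP0 a
  have hfin : FiniteDimensional N N' := IsSplittingField.finiteDimensional N' (P.map (algebraMap F N))
  have hfinF : FiniteDimensional F N' := FiniteDimensional.trans F N N'
  have hNF : NumberField N' := numberField_of (F := F)
  obtain ⟨Q, hQs, hQ⟩ := IsGalois.is_separable_splitting_field F N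
  have hsp : IsSplittingField F N' (Q * P) := IsSplittingField.mul (K := N) N' Q P hQs.ne_zero hPne
  have hnorm : Normal F N' := Normal.of_isSplittingField (Q * P)
  have hgal : IsGalois F N' := ⟨⟩
  refine ⟨hNF, hgal, ?_, ?_⟩
  · intro a ha
    have hsplit := IsSplittingField.splits N' (P.map (algebraMap F N))
    obtain ⟨w, hw⟩ : ∃ w : N', w ^ 2 = algebraMap N N' a := by
      -- the polynomial `X ^ 2 - a` divides `P`
      have h1 : (X ^ 2 - C a : N[X]) ∣ P.map (algebraMap F N) := by
        have h2 : (X ^ 2 - C a : N[X]) ∣ ((minpoly F a).comp (X ^ 2)).map (algebraMap F N) := by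
          have h3 : (X - C a : N[X]) ∣ (minpoly F a).map (algebraMap F N) := by
            rw [dvd_iff_isRoot, IsRoot.def, eval_map_algebraMap]
            exact minpoly.aeval F a
          obtain ⟨R, hR⟩ := h3
          refine ⟨R.comp (X ^ 2), ?_⟩
          rw [map_comp, hR, mul_comp, sub_comp, X_comp, C_comp, Polynomial.map_pow, map_X]
        refine h2.trans ?_
        rw [hP, Polynomial.map_prod]
        exact Finset.dvd_prod_of_mem _ ha
      have h4 : ((X ^ 2 - C a : N[X]).map (algebraMap N N')).Splits := by
        refine Splits.of_dvd hsplit ?_ (Polynomial.map_dvd _ h1)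
        exact (Polynomial.map_ne_zero_iff (algebraMap N N').injective).mpr
          ((Polynomial.map_ne_zero_iff (algebraMap F N).injective).mpr hPne)
      have h5 : ((X ^ 2 - C a : N[X]).map (algebraMap N N')).degree ≠ 0 := by
        rw [degree_map, degree_X_pow_sub_C (by norm_num)]
        norm_num
      obtain ⟨w, hw⟩ := h4.exists_eval_eq_zero h5
      refine ⟨w, ?_⟩
      rw [Polynomial.map_sub, Polynomial.map_pow, map_X, map_C, eval_sub, eval_pow, eval_X,
        eval_C] at hw
      exact sub_eq_zero.mp hw
    exact ⟨w, by rw [← pow_two, hw]⟩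
  · intro g hg
    -- the elements fixed by `g * g`
    have htop : Algebra.adjoin N ((P.map (algebraMap F N)).rootSet N') = ⊤ :=
      IsSplittingField.adjoin_rootSet N' (P.map (algebraMap F N))
    let S : Subalgebra N N' :=
      { carrier := {y | g (g y) = y}
        mul_mem' := fun {a b} ha hb => by
          change g (g (a * b)) = a * b
          rw [map_mul, map_mul, ha, hb]
        add_mem' := fun {a b} ha hb => by
          change g (g (a + b)) = a + b
          rw [map_add, map_add, ha, hb]
        algebraMap_mem' := fun x => by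
          change g (g (algebraMap N N' x)) = algebraMap N N' x
          rw [hg, hg] }
    have hS : Algebra.adjoin N ((P.map (algebraMap F N)).rootSet N') ≤ S := by
      refine Algebra.adjoin_le fun w hw => ?_
      change g (g w) = w
      rw [mem_rootSet_of_ne ((Polynomial.map_ne_zero_iff (algebraMap F N).injective).mpr hPne),
        aeval_map_algebraMap, hP, map_prod, Finset.prod_eq_zero_iff] at hw
      obtain ⟨a, ha, hw⟩ := hw
      -- `w ^ 2` is in `N`
      rw [aeval_comp, map_pow, aeval_X] at hw
      have hsplit : ((minpoly F a).map (algebraMap F N)).Splits := Normal.splits inferInstance a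
      have h1 : w ^ 2 ∈ ((minpoly F a).map (algebraMap F N')).roots := by
        rw [mem_roots ((Polynomial.map_ne_zero_iff (algebraMap F N').injective).mpr
          (minpoly.ne_zero (hint a))), IsRoot.def, eval_map_algebraMap]
        exact hw
      rw [IsScalarTower.algebraMap_eq F N N', ← Polynomial.map_map, hsplit.roots_map,
        Multiset.mem_map] at h1
      obtain ⟨u, -, hu⟩ := h1
      have h2 : g w * g w = w * w := by
        rw [← map_mul, ← pow_two, ← hu, hg]
      rcases mul_self_eq_mul_self_iff.mp h2 with h3 | h3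
      · rw [h3, h3]
      · rw [h3, map_neg, h3, neg_neg]
    ext y
    have hy : y ∈ Algebra.adjoin N ((P.map (algebraMap F N)).rootSet N') := by
      rw [htop]
      trivial
    exact hS hy

/-- adjoining square roots -/
theorem exists_sq (E : Ext F) (A : Finset E.N) :
    ∃ (E' : Ext F) (_ : Algebra E.N E'.N) (_ : IsScalarTower F E.N E'.N),
      (∀ a ∈ A, ∃ w : E'.N, w * w = algebraMap E.N E'.N a) ∧
      ∀ g : Gal E', rs E E' g = 1 → g * g = 1 := by
  classical
  let f : E.N[X] := (∏ a ∈ A, (minpoly F a).comp (X ^ 2)).map (algebraMap F E.N)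
  let N' := SplittingField f
  have h0 : CharZero N' := charZero_of_injective_algebraMap (algebraMap E.N N').injective
  obtain ⟨h1, h2, h3, h4⟩ := exists_sq_aux E.N A N' (IsSplittingField.splittingField f)
  refine ⟨@Ext.mk F _ _ N' _ h1 inferInstance h2, (inferInstance : Algebra E.N N'),
    (inferInstance : IsScalarTower F E.N N'), h3, fun g hg => h4 g fun x => ?_⟩
  have h5 := rs_apply (E := E) (E' := @Ext.mk F _ _ N' _ h1 inferInstance h2) g x
  rw [hg] at h5
  exact h5.symm

lemma exists_comp_aux (N₁ N₂ : Type) [Field N₁] [NumberField N₁] [Algebra F N₁] [IsGalois F N₁]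
    [Field N₂] [NumberField N₂] [Algebra F N₂] [IsGalois F N₂] (q : F[X]) (hq : q.Separable)
    [IsSplittingField F N₂ q] (N' : Type) [Field N'] [Algebra F N'] [Algebra N₁ N']
    [IsScalarTower F N₁ N'] [CharZero N']
    (hA : IsSplittingField N₁ N' (q.map (algebraMap F N₁))) :
    NumberField N' ∧ IsGalois F N' ∧ ∃ (_ : Algebra N₂ N'), IsScalarTower F N₂ N' ∧
      ∀ g : N' ≃ₐ[F] N', (∀ x : N₁, g (algebraMap N₁ N' x) = algebraMap N₁ N' x) →
        (∀ x : N₂, g (algebraMap N₂ N' x) = algebraMap N₂ N' x) → g = 1 := by
  classical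
  have hfin1 : FiniteDimensional F N₁ := Module.Finite.of_restrictScalars_finite ℚ F N₁
  have hfin : FiniteDimensional N₁ N' :=
    IsSplittingField.finiteDimensional N' (q.map (algebraMap F N₁))
  have hfinF : FiniteDimensional F N' := FiniteDimensional.trans F N₁ N'
  have hNF : NumberField N' := numberField_of (F := F)
  obtain ⟨Q, hQs, hQ⟩ := IsGalois.is_separable_splitting_field F N₁
  have hsp : IsSplittingField F N' (Q * q) := IsSplittingField.mul (K := N₁) N' Q q hQs.ne_zero hq.ne_zero
  have hnorm : Normal F N' := Normal.of_isSplittingField (Q * q)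
  have hgal : IsGalois F N' := ⟨⟩
  refine ⟨hNF, hgal, ?_⟩
  have hs : (q.map (algebraMap F N')).Splits := by
    have h := IsSplittingField.splits N' (q.map (algebraMap F N₁))
    rwa [Polynomial.map_map, ← IsScalarTower.algebraMap_eq F N₁ N'] at h
  let f : N₂ →ₐ[F] N' := IsSplittingField.lift N₂ q hs
  let : Algebra N₂ N' := f.toRingHom.toAlgebra
  have ht : IsScalarTower F N₂ N' := IsScalarTower.of_algebraMap_eq' (f.comp_algebraMap).symm
  refine ⟨inferInstance, ht, fun g h₁ h₂ => ?_⟩
  have htop : Algebra.adjoin N₁ ((q.map (algebraMap F N₁)).rootSet N') = ⊤ :=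
    IsSplittingField.adjoin_rootSet N' (q.map (algebraMap F N₁))
  let S : Subalgebra N₁ N' :=
    { carrier := {y | g y = y}
      mul_mem' := fun {a b} ha hb => by
        change g (a * b) = a * b
        rw [map_mul, ha, hb]
      add_mem' := fun {a b} ha hb => by
        change g (a + b) = a + b
        rw [map_add, ha, hb]
      algebraMap_mem' := fun x => h₁ x }
  have hS : Algebra.adjoin N₁ ((q.map (algebraMap F N₁)).rootSet N') ≤ S := by
    refine Algebra.adjoin_le fun w hw => ?_
    change g w = w
    rw [mem_rootSet_of_ne ((Polynomial.map_ne_zero_iff (algebraMap F N₁).injective).mpr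
      hq.ne_zero), aeval_map_algebraMap] at hw
    have hsplit : (q.map (algebraMap F N₂)).Splits := IsSplittingField.splits N₂ q
    have h1 : w ∈ (q.map (algebraMap F N')).roots := by
      rw [mem_roots ((Polynomial.map_ne_zero_iff (algebraMap F N').injective).mpr hq.ne_zero),
        IsRoot.def, eval_map_algebraMap]
      exact hw
    rw [IsScalarTower.algebraMap_eq F N₂ N', ← Polynomial.map_map, hsplit.roots_map,
      Multiset.mem_map] at h1
    obtain ⟨u, -, rfl⟩ := h1
    exact h₂ u
  ext y
  have hy : y ∈ Algebra.adjoin N₁ ((q.map (algebraMap F N₁)).rootSet N') := by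
    rw [htop]
    trivial
  exact hS hy

/-- composita -/
theorem exists_comp (E₁ E₂ : Ext F) : ∃ (E : Ext F) (_ : Algebra E₁.N E.N)
    (_ : IsScalarTower F E₁.N E.N) (_ : Algebra E₂.N E.N) (_ : IsScalarTower F E₂.N E.N),
    ∀ g : Gal E, rs E₁ E g = 1 → rs E₂ E g = 1 → g = 1 := by
  classical
  have hfin2 : FiniteDimensional F E₂.N := Module.Finite.of_restrictScalars_finite ℚ F E₂.N
  obtain ⟨q, hq, hq'⟩ := IsGalois.is_separable_splitting_field F E₂.N
  let f : E₁.N[X] := q.map (algebraMap F E₁.N)
  let N' := SplittingField f
  have h0 : CharZero N' := charZero_of_injective_algebraMap (algebraMap E₁.N N').injective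
  obtain ⟨h1, h2, i, h3, h4⟩ :=
    exists_comp_aux E₁.N E₂.N q hq N' (IsSplittingField.splittingField f)
  let E : Ext F := @Ext.mk F _ _ N' _ h1 inferInstance h2
  let j1 : Algebra E₁.N E.N := (inferInstance : Algebra E₁.N N')
  let j2 : IsScalarTower F E₁.N E.N := (inferInstance : IsScalarTower F E₁.N N')
  let j3 : Algebra E₂.N E.N := i
  let j4 : IsScalarTower F E₂.N E.N := h3
  refine ⟨E, j1, j2, j3, j4, fun g g₁ g₂ => h4 g (fun x => ?_) (fun x => ?_)⟩
  · have h5 := rs_apply (E := E₁) (E' := E) g x
    rw [g₁] at h5
    exact h5.symm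
  · have h5 := rs_apply (E := E₂) (E' := E) g x
    rw [g₂] at h5
    exact h5.symm

/-- the extension by a square root of `-1` -/
theorem exists_I (F : Type) [Field F] [NumberField F] : ∃ (E : Ext F) (j : E.N), j * j = -1 ∧
    ∀ g : Gal E, g j = j → g = 1 := by
  classical
  let f : F[X] := X ^ 2 + 1
  let N' := SplittingField f
  have h0 : CharZero N' := charZero_of_injective_algebraMap (algebraMap F N').injective
  have hf : f ≠ 0 := (monic_X_pow_add_C (1 : F) two_ne_zero).ne_zero
  have hfin : FiniteDimensional F N' := IsSplittingField.finiteDimensional N' f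
  have h1 : NumberField N' := numberField_of (F := F)
  have hnorm : Normal F N' := Normal.of_isSplittingField f
  have h2 : IsGalois F N' := ⟨⟩
  have hsplit : (f.map (algebraMap F N')).Splits := IsSplittingField.splits N' f
  have hdeg : (f.map (algebraMap F N')).degree ≠ 0 := by
    rw [degree_map]
    have : f.degree = 2 := by
      have := degree_X_pow_add_C (n := 2) (by norm_num) (1 : F)
      simpa [f] using this
    rw [this]
    norm_num
  obtain ⟨j, hj⟩ := hsplit.exists_eval_eq_zero hdeg
  have hj' : j * j = -1 := by
    simp only [f, Polynomial.map_add, Polynomial.map_pow, map_X, Polynomial.map_one, eval_add,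
      eval_pow, eval_X, eval_one] at hj
    rw [← pow_two]
    exact eq_neg_of_add_eq_zero_left hj
  refine ⟨@Ext.mk F _ _ N' _ h1 inferInstance h2, j, hj', fun g hg => ?_⟩
  have htop : Algebra.adjoin F (f.rootSet N') = ⊤ := IsSplittingField.adjoin_rootSet N' f
  let S : Subalgebra F N' :=
    { carrier := {y | (g : N' ≃ₐ[F] N') y = y}
      mul_mem' := fun {a b} ha hb => by
        change (g : N' ≃ₐ[F] N') (a * b) = a * b
        rw [map_mul, ha, hb]
      add_mem' := fun {a b} ha hb => by
        change (g : N' ≃ₐ[F] N') (a + b) = a + b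
        rw [map_add, ha, hb]
      algebraMap_mem' := fun x => (g : N' ≃ₐ[F] N').commutes x }
  have hS : Algebra.adjoin F (f.rootSet N') ≤ S := by
    refine Algebra.adjoin_le fun w hw => ?_
    change (g : N' ≃ₐ[F] N') w = w
    rw [mem_rootSet_of_ne hf] at hw
    have h3 : w * w = j * j := by
      rw [hj']
      simp only [f, map_add, map_pow, aeval_X, map_one] at hw
      rw [← pow_two]
      exact eq_neg_of_add_eq_zero_left hw
    rcases mul_self_eq_mul_self_iff.mp h3 with rfl | rfl
    · exact hg
    · rw [map_neg]
      exact congrArg _ hg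
  ext y
  have hy : y ∈ Algebra.adjoin F (f.rootSet N') := by
    rw [htop]
    trivial
  exact hS hy

end Pool.Agent.Run7.h810.DW
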