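import Mathlib
import Pool.Agent.Run7.h810.DW.Inv
import Pool.Agent.Run7.h810.DF.Per

/-!
# Deligne's relation for monomials in critical values of Artin twists
-/

set_option autoImplicit false
set_option linter.unusedSectionVars false
set_option linter.unusedVariables false

namespace Pool.Agent.Run7.h810.DW

open NumberField NumberField.ComplexEmbedding Pool.Agent.R389 Pool.Agent.K4H74.ST
  Pool.Agent.W446.AS Pool.Agent.H302R2 Pool.Agent.H302R3 Pool.Agent.H541R3.ART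
  Pool.Agent.K4H74
open Pool.Agent.Run7.h810.DL (isChar_comp virt_sub ind_one' ind_van LL LL_tw LL_virt virt_tw Cov Tw
  MS Sn allSn ind_tower lc_virt lc_conj mult)
open Pool.Agent.Run7.h810.DF

variable {F : Type} [Field F] [NumberField F]

/-- Deligne's relation, for a single `τ`, with quotients of periods -/
def Del₀ (τ : ℂ ≃+* ℂ) (w : ℂ →₀ ℤ) (r : ℤ) (t : Ideal (𝓞 F) → ℕ → ℂ) (b : ℝ) (α : ℂ)
    (β : (F →+* ℂ) → ℂ) {E : Ext F} {n : ℕ} (ρ : Rep E n) : Prop :=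
  ∀ (Φ : (F →+* ℂ) → (E.N →+* ℂ)) (x : E.N) (d : (F →+* ℂ) → ℕ) (f f' : ℂ → ℂ), IsSys Φ →
    res Φ x ρ ≠ 0 → (∀ σ c, IsCC (Φ σ) c → chr ρ c = n - 2 * d σ) →
    (∀ σ, (¬ ∃ c : Gal E, IsCC (Φ σ) c) → d σ = 0) →
    IsL t b (chr ρ) f → IsL (fun p k => τ (t p k)) b (chr (conj τ ρ)) f' →
    τ (mono w f / res Φ x ρ ^ r) =
      α ^ n * (∏ σ : F →+* ℂ, β σ ^ d σ) * (mono w f' / res Φ x (conj τ ρ) ^ r)

/-- the data for `M`, `τ` and `w` -/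
def dat (τ : ℂ ≃+* ℂ) (w : ℂ →₀ ℤ) (r : ℤ) (t : Ideal (𝓞 F) → ℕ → ℂ) (b : ℝ) : Dat F :=
  ⟨τ, w, r, t, fun p k => τ (t p k), b⟩

section

variable {τ : ℂ ≃+* ℂ} {w : ℂ →₀ ℤ} {r : ℤ} {t : Ideal (𝓞 F) → ℕ → ℂ} {b : ℝ} {E : Ext F}

lemma VV.of_rep {n : ℕ} {ρ : Rep E n} {Φ : (F →+* ℂ) → (E.N →+* ℂ)} {g : (F →+* ℂ) → Gal E}
    (hΦ : IsSys Φ) (hg : IsAct τ Φ g) {f f' : ℂ → ℂ} (hf : IsL t b (chr ρ) f)
    (hf' : IsL (fun p k => τ (t p k)) b (chr (conj τ ρ)) f') :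
    VV (dat τ w r t b) (chr ρ) (τ (mono w f) * dt τ g ρ ^ r / mono w f') := by
  refine ⟨Φ, g, _, f, f', hΦ, hg, DV.of_rep ρ g, hf, ?_, rfl⟩
  have h := chr_conj τ ρ
  change IsL (fun p k => τ (t p k)) b (fun x => τ (chr ρ x)) f'
  rw [← h]
  exact hf'

lemma del_iff {n : ℕ} {ρ : Rep E n} {Φ : (F →+* ℂ) → (E.N →+* ℂ)} {g : (F →+* ℂ) → Gal E}
    (hg : IsAct τ Φ g) {f f' : ℂ → ℂ}
    (hf : IsL t b (chr ρ) f) (hf' : IsL (fun p k => τ (t p k)) b (chr (conj τ ρ)) f') {x : E.N}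
    (hx : res Φ x ρ ≠ 0) (A : ℂ) :
    τ (mono w f / res Φ x ρ ^ r) = A * (mono w f' / res Φ x (conj τ ρ) ^ r) ↔
    τ (mono w f) * dt τ g ρ ^ r / mono w f' = A := by
  rw [res_conj τ hg]
  have a3 : mono w f' ≠ 0 := mono_ne hf'.ne
  have a5 := dt_ne τ g ρ
  have a7 : τ (res Φ x ρ) ≠ 0 := (map_ne_zero τ).mpr hx
  rw [map_div₀, map_zpow₀]
  generalize τ (mono w f) = u at *
  generalize mono w f' = u' at *
  generalize dt τ g ρ = w at *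
  generalize τ (res Φ x ρ) = y at *
  have c1 := zpow_ne_zero r a7
  have c6 := zpow_ne_zero r a5
  rw [mul_zpow, ← mul_div_assoc, div_eq_div_iff c1 (mul_ne_zero c6 c1), div_eq_iff a3]
  constructor
  · intro h
    apply mul_left_cancel₀ c1
    linear_combination h
  · intro h
    linear_combination y ^ r * h

lemma VV.of_rel {n : ℕ} {ρ ρ' : Rep E n} (h : Rel w r t b τ ρ ρ') {f₁ f₂ f₁' f₂' : ℂ → ℂ}
    (h₁ : IsL t b (chr ρ) f₁) (h₂ : IsL t b (chr ρ') f₂)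
    (h₁' : IsL (fun p k => τ (t p k)) b (chr (conj τ ρ)) f₁')
    (h₂' : IsL (fun p k => τ (t p k)) b (chr (conj τ ρ')) f₂') :
    VV (dat τ w r t b) (chr ρ - chr ρ') 1 := by
  obtain ⟨Φ, hΦ⟩ := exists_sys E
  obtain ⟨g, hg⟩ := exists_act τ hΦ
  obtain ⟨x, hx⟩ := exists_res E
  have h0 := (VV.of_rep (w := w) (r := r) hΦ hg h₁ h₁').sub
    (VV.of_rep (w := w) (r := r) hΦ hg h₂ h₂')
  have h1 := h Φ x f₁ f₂ f₁' f₂' hΦ (hx Φ n ρ) (hx Φ n ρ') h₁ h₂ h₁' h₂'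
  have key : (τ (mono w f₁) * dt τ g ρ ^ r / mono w f₁')
      / (τ (mono w f₂) * dt τ g ρ' ^ r / mono w f₂') = 1 := by
    rw [res_conj τ hg, res_conj τ hg, map_div₀, map_div₀, map_zpow₀, map_div₀] at h1
    have a1 : τ (mono w f₁) ≠ 0 := (map_ne_zero τ).mpr (mono_ne h₁.ne)
    have a2 : τ (mono w f₂) ≠ 0 := (map_ne_zero τ).mpr (mono_ne h₂.ne)
    have a3 : mono w f₁' ≠ 0 := mono_ne h₁'.ne
    have a4 : mono w f₂' ≠ 0 := mono_ne h₂'.ne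
    have a5 := dt_ne τ g ρ
    have a6 := dt_ne τ g ρ'
    have a7 : τ (res Φ x ρ) ≠ 0 := (map_ne_zero τ).mpr (hx Φ n ρ)
    have a8 : τ (res Φ x ρ') ≠ 0 := (map_ne_zero τ).mpr (hx Φ n ρ')
    have h2 : (dt τ g ρ * τ (res Φ x ρ) / (dt τ g ρ' * τ (res Φ x ρ'))) ^ r
        = (dt τ g ρ / dt τ g ρ') ^ r * (τ (res Φ x ρ) / τ (res Φ x ρ')) ^ r := by
      rw [← mul_zpow]
      congr 1
      field_simp
    rw [h2] at h1
    have a9 : (τ (res Φ x ρ) / τ (res Φ x ρ')) ^ r ≠ 0 := zpow_ne_zero _ (div_ne_zero a7 a8)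
    have a10 : (dt τ g ρ / dt τ g ρ') ^ r ≠ 0 := zpow_ne_zero _ (div_ne_zero a5 a6)
    rw [div_eq_div_iff a9 (mul_ne_zero a10 a9)] at h1
    have h3 : τ (mono w f₁) / τ (mono w f₂) * (dt τ g ρ / dt τ g ρ') ^ r
        = mono w f₁' / mono w f₂' := by
      apply mul_right_cancel₀ a9
      rw [mul_assoc]
      exact h1
    rw [div_zpow] at h3
    have a11 := zpow_ne_zero r a6
    have a12 := zpow_ne_zero r a5
    generalize dt τ g ρ ^ r = q1 at *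
    generalize dt τ g ρ' ^ r = q2 at *
    rw [div_div_div_eq, div_eq_one_iff_eq (mul_ne_zero a3 (mul_ne_zero a2 a11))]
    field_simp at h3
    linear_combination h3
  rw [key] at h0
  exact h0

lemma VV.nsmul {D : Dat F} {u : Gal E → ℂ} {v : ℂ} (hv : VV D u v) (n : ℕ) :
    VV D (n • u) (v ^ n) := by
  induction n with
  | zero =>
    rw [zero_smul, pow_zero]
    exact VV.zero
  | succ n ih =>
    rw [succ_nsmul, pow_succ]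
    exact ih.add hv

lemma VV.sum {D : Dat F} {ι : Type} (s : Finset ι) {u : ι → Gal E → ℂ} {v : ι → ℂ}
    (hv : ∀ i, VV D (u i) (v i)) : VV D (∑ i ∈ s, u i) (∏ i ∈ s, v i) := by
  classical
  induction s using Finset.induction_on with
  | empty =>
    rw [Finset.sum_empty, Finset.prod_empty]
    exact VV.zero
  | insert a s ha ih =>
    rw [Finset.sum_insert ha, Finset.prod_insert ha]
    exact (hv a).add ih

/-- the hypotheses of the main theorem -/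
def HC (𝒩 : Ext F → Prop) (τ : ℂ ≃+* ℂ) (w : ℂ →₀ ℤ) (r : ℤ)
    (t : Ideal (𝓞 F) → ℕ → ℂ) (b : ℝ) : Prop :=
  ∀ (E : Ext F), 𝒩 E → ∀ (H : Subgroup (Gal E)) (ψ ψ' : Gal E → ℂ) (n : ℕ) (ρ ρ' : Rep E n),
      Agree ψ ψ' → IsInd H ψ ρ → IsInd H ψ' ρ' →
        Con τ t b ρ ∧ Con τ t b ρ' ∧ Rel w r t b τ ρ ρ'

variable {𝒩 : Ext F → Prop} {𝒳 : (E : Ext F) → Set (Gal E)}

lemma agree_ext' {H : Subgroup (Gal E)} {ψ ψ' : H →* ℂˣ}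
    (hX : ∀ c ∈ CC F E.N, c ∈ 𝒳 E ∨ c = 1)
    (h : ∀ c : H, (c : Gal E) ∈ 𝒳 E → ψ c = ψ' c) :
    Agree (ext H (lc ψ)) (ext H (lc ψ')) := by
  refine agree_ext fun c hc => ?_
  rcases hX c hc with h1 | h1
  · exact h c h1
  · have h2 : c = 1 := Subtype.ext h1
    rw [h2, map_one, map_one]

lemma HC.hy (hcls : Cls 𝒩 𝒳) (hX : ∀ E, 𝒩 E → ∀ c ∈ CC F E.N, c ∈ 𝒳 E ∨ c = 1)
    (hC : HC 𝒩 τ w r t b) : Hy (dat τ w r t b) 𝒩 𝒳 := by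
  have hex : ∀ (E : Ext F), 𝒩 E → ∀ (H : Subgroup (Gal E)) (ψ : H →* ℂˣ) (n : ℕ) (ρ : Rep E n),
      chr ρ = ind H (lc ψ) → Con τ t b ρ :=
    fun E hE H ψ n ρ hρ => (hC E hE H _ _ n ρ ρ (fun _ _ _ => rfl) (isInd_of hρ) (isInd_of hρ)).1
  refine ⟨hcls, ?_, ?_⟩
  · intro E hE H ψ
    obtain ⟨n, ρ, hρ⟩ := isChar_chr (SC.isChar_ind H (IsChar.lc ψ))
    obtain ⟨⟨f, hf⟩, f', hf'⟩ := hex E hE H ψ n ρ hρ
    obtain ⟨Φ, hΦ⟩ := exists_sys E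
    obtain ⟨g, hg⟩ := exists_act τ hΦ
    rw [← hρ]
    exact ⟨_, VV.of_rep hΦ hg hf hf'⟩
  · intro E hE H ψ ψ' h
    obtain ⟨n, ρ, hρ⟩ := isChar_chr (SC.isChar_ind H (IsChar.lc ψ))
    obtain ⟨n', ρ', hρ'⟩ := isChar_chr (SC.isChar_ind H (IsChar.lc ψ'))
    have hn : n' = n := by
      have h1 : (n' : ℂ) = n := by
        rw [← chr_one ρ, ← chr_one ρ', hρ, hρ']
        have h2 : ind H (lc ψ' - lc ψ) 1 = 0 := ind_one' H (by simp [lc])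
        rw [ind_sub, Pi.sub_apply] at h2
        exact sub_eq_zero.mp h2
      exact_mod_cast h1
    subst hn
    obtain ⟨⟨f₁, h₁⟩, f₁', h₁'⟩ := hex E hE H ψ _ ρ hρ
    obtain ⟨⟨f₂, h₂⟩, f₂', h₂'⟩ := hex E hE H ψ' _ ρ' hρ'
    have h3 := (hC E hE H _ _ _ ρ ρ' (agree_ext' (hX E hE) h) (isInd_of hρ) (isInd_of hρ')).2.2
    have h4 := VV.of_rel h3 h₁ h₂ h₁' h₂'
    rw [hρ, hρ'] at h4
    exact h4

variable (𝒩 𝒳) in
/-- a system of sign characters for the class of fields -/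
structure Sgs (E₀ : Ext F) (s : (F →+* ℂ) → (Gal E₀ →* ℂˣ)) : Prop where
  mem : 𝒩 E₀
  sg : ∀ σ, Sg (s σ)
  comp : ∀ E, 𝒩 E → ∃ (E₃ : Ext F) (_ : Algebra E.N E₃.N) (_ : IsScalarTower F E.N E₃.N)
    (_ : Algebra E₀.N E₃.N) (_ : IsScalarTower F E₀.N E₃.N), 𝒩 E₃
  val : ∀ (E E₃ : Ext F) [Algebra E.N E₃.N] [IsScalarTower F E.N E₃.N] [Algebra E₀.N E₃.N]
    [IsScalarTower F E₀.N E₃.N], 𝒩 E → 𝒩 E₃ → ∀ (n : ℕ) (ρ : Rep E n) (d : (F →+* ℂ) → ℕ),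
    (∀ (φ : E.N →+* ℂ) (c : Gal E), IsCC φ c → chr ρ c = n - 2 * d (φ.comp (algebraMap F E.N))) →
    ∀ c ∈ 𝒳 E₃, chr ρ (rs E E₃ c) = n + ∑ σ, d σ * ((s σ (rs E₀ E₃ c) : ℂˣ) - 1 : ℂ)

/-- **The main theorem.** -/
theorem main (hcls : Cls 𝒩 𝒳) (hX : ∀ E, 𝒩 E → ∀ c ∈ CC F E.N, c ∈ 𝒳 E ∨ c = 1)
    (hC : HC 𝒩 τ w r t b) {E₀ : Ext F} {s : (F →+* ℂ) → (Gal E₀ →* ℂˣ)}
    (hs : Sgs 𝒩 𝒳 E₀ s) {α : ℂ} {γ : (F →+* ℂ) → ℂ}
    (hα : VV (dat τ w r t b) (lc (1 : Gal E₀ →* ℂˣ)) α)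
    (hγ : ∀ σ, VV (dat τ w r t b) (lc (s σ)) (γ σ)) (E : Ext F) (hE : 𝒩 E) (n : ℕ)
    (ρ : Rep E n) : Con τ t b ρ ∧ Del₀ τ w r t b α (fun σ => γ σ / α) ρ := by
  classical
  have hy : Hy (dat τ w r t b) 𝒩 𝒳 := hC.hy hcls hX
  -- the formula
  have hform : ∀ (v : ℂ) (d : (F →+* ℂ) → ℕ), VV (dat τ w r t b) (chr ρ) v →
      (∀ (φ : E.N →+* ℂ) (c : Gal E), IsCC φ c →
        chr ρ c = n - 2 * d (φ.comp (algebraMap F E.N))) →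
      v = α ^ n * ∏ σ, (γ σ / α) ^ d σ := by
    intro v d hv hc
    obtain ⟨E₃, i1, i2, i3, i4, hE₃⟩ := hs.comp E hE
    have hll : ∀ ψ : Gal E₃ →* ℂˣ, lc ψ ∈ LL (Gal E₃) := fun ψ =>
      AddSubgroup.subset_closure ⟨ψ, rfl⟩
    let s₃ : (F →+* ℂ) → (Gal E₃ →* ℂˣ) := fun σ => (s σ).comp (rs E₀ E₃)
    let k : Gal E₃ → ℂ := n • lc (1 : Gal E₃ →* ℂˣ) + ∑ σ, d σ • (lc (s₃ σ) - lc 1)
    have hk : k ∈ LL (Gal E₃) :=
      add_mem (nsmul_mem (hll 1) n)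
        (sum_mem fun σ _ => nsmul_mem (sub_mem (hll _) (hll 1)) (d σ))
    have h1 := hy.formula hE (E' := E₃) hE₃ (chr_isChar ρ).virt hk (by
      rw [chr_one]
      change (n : ℂ) = (n • lc (1 : Gal E₃ →* ℂˣ) + ∑ σ, d σ • (lc (s₃ σ) - lc 1)) 1
      rw [Pi.add_apply, Finset.sum_apply, Finset.sum_eq_zero, add_zero]
      · simp [lc]
      · intro σ _
        simp [lc]) (by
      intro c hcc
      rw [hs.val E E₃ hE hE₃ n ρ d hc c hcc]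
      change _ = (n • lc (1 : Gal E₃ →* ℂˣ) + ∑ σ, d σ • (lc (s₃ σ) - lc 1)) c
      rw [Pi.add_apply, Finset.sum_apply]
      congr 1
      · simp [lc]
      · refine Finset.sum_congr rfl fun σ _ => ?_
        change _ = d σ • (lc (s₃ σ) c - lc 1 c)
        rw [nsmul_eq_mul]
        simp [lc, s₃])
    have g1 : VV (dat τ w r t b) (lc (1 : Gal E₃ →* ℂˣ)) α := by
      have h := hα.infl (E' := E₃)
      exact h
    have g2 : ∀ σ, VV (dat τ w r t b) (lc (s₃ σ)) (γ σ) := fun σ => (hγ σ).infl (E' := E₃)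
    have h2 : VV (dat τ w r t b) k (α ^ n * ∏ σ, (γ σ / α) ^ d σ) :=
      (g1.nsmul n).add (VV.sum Finset.univ fun σ => ((g2 σ).sub g1).nsmul (d σ))
    have h3 := (hv.infl (E' := E₃)).sub h2
    have h4 := h3.unique h1
    exact (div_eq_one_iff_eq h2.ne).mp h4
  -- existence
  obtain ⟨v, hv⟩ := hy.exist hE (chr_isChar ρ).virt
  refine ⟨⟨?_, ?_⟩, ?_⟩
  · obtain ⟨φ, g, d, f, f', hΦ, hg, hd, hf, hf', -⟩ := hv
    exact ⟨f, hf⟩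
  · obtain ⟨φ, g, d, f, f', hΦ, hg, hd, hf, hf', -⟩ := hv
    refine ⟨f', ?_⟩
    rw [chr_conj]
    exact hf'
  · intro Φ x d f f' hΦ hx hd _ hf hf'
    obtain ⟨g, hg⟩ := exists_act τ hΦ
    rw [del_iff hg hf hf' hx]
    refine hform _ d (VV.of_rep hΦ hg hf hf') fun φ c hc => ?_
    obtain ⟨h, hh⟩ := exists_aut (Φ (φ.comp (algebraMap F E.N))) φ (hΦ _)
    have h1 : IsCC (Φ (φ.comp (algebraMap F E.N))) (h * c * h⁻¹) := by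
      intro y
      have h2 : h (h⁻¹ y) = y := by
        change (h * h⁻¹) y = y
        rw [mul_inv_cancel]
        rfl
      change Φ _ (h (c (h⁻¹ y))) = _
      rw [hh, hc, ← hh, h2]
    rw [← chr_class ρ c h]
    exact hd _ _ h1

end

section

variable {C : Type} [Field C] {t : Ideal (𝓞 F) → ℕ → C} {w : ℂ →₀ ℤ} {r : ℤ} {b : ℝ}
  {𝒩 : Ext F → Prop} {𝒳 : (E : Ext F) → Set (Gal E)}

/-- **The periods exist.** -/
theorem per (hcls : Cls 𝒩 𝒳) (hX : ∀ E, 𝒩 E → ∀ c ∈ CC F E.N, c ∈ 𝒳 E ∨ c = 1)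
    {E₀ : Ext F} {s : (F →+* ℂ) → (Gal E₀ →* ℂˣ)} (hs : Sgs 𝒩 𝒳 E₀ s)
    (hC : Quo w r t b 𝒩) : Deligne w r t b 𝒩 := by
  classical
  have hex : ∀ (e : C →+* ℂ) (ψ : Gal E₀ →* ℂˣ), ∃ f, IsL (fun p k => e (t p k)) b (lc ψ) f := by
    intro e ψ
    have h : ind ⊤ (lc (ψ.comp (Subgroup.subtype ⊤))) = lc ψ :=
      ind_top (lc ψ) (fun g x => lc_conj _ g x)
    have h1 := (hC e (RingEquiv.refl ℂ) E₀ hs.mem ⊤ _ _ 1 (lr E₀ ψ) (lr E₀ ψ)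
      (fun _ _ _ => rfl) (isInd_of ((chr_lr E₀ ψ).trans h.symm))
      (isInd_of ((chr_lr E₀ ψ).trans h.symm))).1.1
    rwa [chr_lr] at h1
  choose f hf using hex
  obtain ⟨Φ, hΦ⟩ := exists_sys E₀
  obtain ⟨x, hx⟩ := exists_res E₀
  let a : (C →+* ℂ) → (Gal E₀ →* ℂˣ) → ℂ := fun e ψ => mono w (f e ψ) / res Φ x (lr E₀ ψ) ^ r
  have ha : ∀ e ψ, a e ψ ≠ 0 := fun e ψ =>
    div_ne_zero (mono_ne (hf e ψ).ne) (zpow_ne_zero _ (hx Φ 1 _))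
  have key : ∀ (e : C →+* ℂ) (τ : ℂ ≃+* ℂ) (ψ : Gal E₀ →* ℂˣ), Sg ψ →
      VV (dat τ w r (fun p k => e (t p k)) b) (lc ψ) (τ (a e ψ) / a ((τ : ℂ →+* ℂ).comp e) ψ) := by
    intro e τ ψ hψ
    obtain ⟨g, hg⟩ := exists_act τ hΦ
    have h1 : IsL (fun p k => e (t p k)) b (chr (lr E₀ ψ)) (f e ψ) := by
      rw [chr_lr]
      exact hf e ψ
    have h2 : IsL (fun p k => τ (e (t p k))) b (chr (conj τ (lr E₀ ψ)))
        (f ((τ : ℂ →+* ℂ).comp e) ψ) := by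
      rw [conj_lr τ E₀ hψ, chr_lr]
      exact hf _ ψ
    have h3 := VV.of_rep (w := w) (r := r) hΦ hg h1 h2
    have h4 := (del_iff (w := w) (r := r) hg h1 h2 (hx Φ 1 _)
      (τ (a e ψ) / a ((τ : ℂ →+* ℂ).comp e) ψ)).mp (by
        rw [conj_lr τ E₀ hψ]
        exact (div_mul_cancel₀ _ (ha _ _)).symm)
    rw [h4, chr_lr] at h3
    exact h3
  refine ⟨fun e => a e 1, fun e σ => a e (s σ) / a e 1, fun e => ha e 1,
    fun e σ => div_ne_zero (ha _ _) (ha _ _), fun e τ E hE n ρ => ?_⟩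
  have h1 : Sg (1 : Gal E₀ →* ℂˣ) := fun g => Or.inl rfl
  obtain ⟨h2, h3⟩ := main hcls hX (hC e τ) hs (key e τ 1 h1)
    (fun σ => key e τ (s σ) (hs.sg σ)) E hE n ρ
  refine ⟨h2, fun Φ₁ x₁ d f₁ f₁' hΦ₁ hx₁ hd hd' hf₁ hf₁' => ?_⟩
  have h4 := h3 Φ₁ x₁ d f₁ f₁' hΦ₁ hx₁ hd hd' hf₁ hf₁'
  set e' : C →+* ℂ := (τ : ℂ →+* ℂ).comp e with he'
  have h5 : ∏ σ : F →+* ℂ, (τ (a e (s σ)) / a e' (s σ) / (τ (a e 1) / a e' 1)) ^ d σ
      = (∏ σ : F →+* ℂ, τ (a e (s σ) / a e 1) ^ d σ) / ∏ σ : F →+* ℂ, (a e' (s σ) / a e' 1) ^ d σ := by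
    rw [← Finset.prod_div_distrib]
    refine Finset.prod_congr rfl fun σ _ => ?_
    rw [← div_pow, map_div₀ τ (a e (s σ)) (a e 1), div_div_div_comm]
  have h6 : τ (mono w f₁ / (res Φ₁ x₁ ρ ^ r * a e 1 ^ n * ∏ σ, (a e (s σ) / a e 1) ^ d σ))
      = τ (mono w f₁ / res Φ₁ x₁ ρ ^ r) / (τ (a e 1) ^ n * ∏ σ, τ (a e (s σ) / a e 1) ^ d σ) := by
    rw [mul_assoc, ← div_div, map_div₀ τ (mono w f₁ / res Φ₁ x₁ ρ ^ r), map_mul, map_pow, map_prod]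
    simp only [map_pow]
  rw [h6, h4]
  simp only []
  rw [h5]
  have n1 : τ (a e 1) ^ n ≠ 0 := pow_ne_zero _ ((map_ne_zero τ).mpr (ha _ _))
  have n2 : ∏ σ, τ (a e (s σ) / a e 1) ^ d σ ≠ 0 := Finset.prod_ne_zero_iff.mpr fun σ _ =>
    pow_ne_zero _ ((map_ne_zero τ).mpr (div_ne_zero (ha _ _) (ha _ _)))
  generalize ∏ σ, τ (a e (s σ) / a e 1) ^ d σ = p1 at *
  generalize ∏ σ : F →+* ℂ, (a e' (s σ) / a e' 1) ^ d σ = p2 at *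
  generalize res Φ₁ x₁ (conj τ ρ) ^ r = p3 at *
  generalize τ (a e 1) = p4 at *
  rw [div_pow]
  generalize p4 ^ n = p5 at *
  generalize a e' 1 ^ n = p6 at *
  rw [div_mul_div_comm, div_mul_div_comm, div_div, ← mul_div_mul_left (mono w f₁') (p3 * p6 * p2)
    (mul_ne_zero n1 n2)]
  congr 1
  ring

/-- the converse -/
theorem conv (h : Deligne w r t b 𝒩) : Quo w r t b 𝒩 := by
  obtain ⟨A, B, hA, hB, h⟩ := h
  intro e τ E hE H ψ ψ' n ρ ρ' hψ hρ hρ'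
  refine ⟨(h e τ E hE n ρ).1, (h e τ E hE n ρ').1, ?_⟩
  intro Φ x f₁ f₂ f₁' f₂' hΦ hx hx' h₁ h₂ h₁' h₂'
  obtain ⟨d, hd, hd'⟩ := exists_mult Φ ρ
  have h3 : ∀ σ c, IsCC (Φ σ) c → chr ρ' c = n - 2 * d σ := by
    intro σ c hc
    rw [← hd σ c hc, hρ.2, hρ'.2]
    congr 1
    refine finsum_congr fun y => ?_
    exact (hψ _ _ (isCC_conj hc y)).symm
  have e1 := (h e τ E hE n ρ).2 Φ x d f₁ f₁' hΦ hx hd hd' h₁ h₁'
  have e2 := (h e τ E hE n ρ').2 Φ x d f₂ f₂' hΦ hx' h3 hd' h₂ h₂'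
  set e' : C →+* ℂ := (τ : ℂ →+* ℂ).comp e with he'
  have n1 : mono w f₁ ≠ 0 := mono_ne h₁.ne
  have n2 : mono w f₂ ≠ 0 := mono_ne h₂.ne
  have n1' : mono w f₁' ≠ 0 := mono_ne h₁'.ne
  have n2' : mono w f₂' ≠ 0 := mono_ne h₂'.ne
  obtain ⟨g, hg⟩ := exists_act τ hΦ
  have m1 : res Φ x (conj τ ρ) ≠ 0 := by
    rw [res_conj τ hg]
    exact mul_ne_zero (dt_ne τ g ρ) ((map_ne_zero τ).mpr hx)
  have m2 : res Φ x (conj τ ρ') ≠ 0 := by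
    rw [res_conj τ hg]
    exact mul_ne_zero (dt_ne τ g ρ') ((map_ne_zero τ).mpr hx')
  have k3 : ∀ e, A e ^ n ≠ 0 := fun e => pow_ne_zero _ (hA e)
  have k4 : ∀ e, ∏ σ, B e σ ^ d σ ≠ 0 := fun e =>
    Finset.prod_ne_zero_iff.mpr fun σ _ => pow_ne_zero _ (hB e σ)
  have e3 : mono w f₁ / mono w f₂ / (res Φ x ρ / res Φ x ρ') ^ r
      = (mono w f₁ / (res Φ x ρ ^ r * A e ^ n * ∏ σ, B e σ ^ d σ))
        / (mono w f₂ / (res Φ x ρ' ^ r * A e ^ n * ∏ σ, B e σ ^ d σ)) := by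
    have k1 := zpow_ne_zero r hx
    have k2 := zpow_ne_zero r hx'
    have k3' := k3 e
    have k4' := k4 e
    rw [div_zpow]
    generalize ∏ σ, B e σ ^ d σ = p1 at *
    generalize A e ^ n = p2 at *
    generalize res Φ x ρ ^ r = p3 at *
    generalize res Φ x ρ' ^ r = p4 at *
    field_simp
  have e4 : mono w f₁' / mono w f₂' / (res Φ x (conj τ ρ) / res Φ x (conj τ ρ')) ^ r
      = (mono w f₁' / (res Φ x (conj τ ρ) ^ r * A e' ^ n * ∏ σ, B e' σ ^ d σ))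
        / (mono w f₂' / (res Φ x (conj τ ρ') ^ r * A e' ^ n * ∏ σ, B e' σ ^ d σ)) := by
    have k1 := zpow_ne_zero r m1
    have k2 := zpow_ne_zero r m2
    have k3' := k3 e'
    have k4' := k4 e'
    rw [div_zpow]
    generalize ∏ σ, B e' σ ^ d σ = p1 at *
    generalize A e' ^ n = p2 at *
    generalize res Φ x (conj τ ρ) ^ r = p3 at *
    generalize res Φ x (conj τ ρ') ^ r = p4 at *
    field_simp
  rw [e3, map_div₀, e1, e2, e4]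

end

end Pool.Agent.Run7.h810.DW
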