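import Mathlib
import Pool.Agent.Run7.h810.DW.Final

/-!
# The three classes of fields
-/

set_option autoImplicit false
set_option linter.unusedSectionVars false
set_option linter.unusedVariables false

namespace Pool.Agent.Run7.h810.DW

open NumberField NumberField.ComplexEmbedding Pool.Agent.R389 Pool.Agent.K4H74.ST
  Pool.Agent.W446.AS Pool.Agent.H302R2 Pool.Agent.H302R3 Pool.Agent.H541R3.ART
  Pool.Agent.K4H74
open Pool.Agent.Run7.h810.DF

variable {F : Type} [Field F] [NumberField F]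

/-- **Sign characters of subgroups.** -/
theorem exists_sgn (E : Ext F) (H : Subgroup (Gal E)) (Y : Set (Gal E))
    (hY : ∀ y ∈ Y, y ∈ CC F E.N ∧ y ∈ H) (hYc : ∀ y ∈ Y, ∀ h ∈ H, h⁻¹ * y * h ∈ Y) :
    ∃ (E' : Ext F) (_ : Algebra E.N E'.N) (_ : IsScalarTower F E.N E'.N),
      (∀ g : Gal E', rs E E' g = 1 → g * g = 1) ∧
      ∃ (χ : (H.comap (rs E E')) →* ℂˣ), Sg χ ∧
      ∀ x : H.comap (rs E E'), (x : Gal E') ∈ CC F E'.N → (χ x = -1 ↔ rs E E' x ∈ Y) := by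
  classical
  have hfin1 : FiniteDimensional F E.N := Module.Finite.of_restrictScalars_finite ℚ F E.N
  let K : IntermediateField F E.N := IntermediateField.fixedField H
  have hK : NumberField K := inferInstance
  let S : Set (K →+* ℂ) := {σ | ∃ φ : E.N →+* ℂ, ∃ c ∈ Y, IsConj φ c ∧ σ = φ.comp (algebraMap K E.N)}
  obtain ⟨α, hα⟩ := exists_sign K S
  obtain ⟨E', i1, i2, hE', hk⟩ := exists_sq E {(α : E.N)}
  obtain ⟨w, hw⟩ := hE' (α : E.N) (by simp)
  refine ⟨E', i1, i2, hk, ?_⟩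
  have hfix : ∀ g ∈ H, ∀ x : K, g (x : E.N) = x := fun g hg x => x.2 ⟨g, hg⟩
  have hfw : ∀ g ∈ H.comap (rs E E'), g (w * w) = w * w := by
    intro g hg
    rw [hw, ← rs_apply, hfix _ hg]
  let χ : (H.comap (rs E E')) →* ℂˣ := MonoidHom.mk' (fun g => sgn w (g : Gal E'))
    (fun a b => sgn_mul (pm_of_sq (hfw a a.2)) (pm_of_sq (hfw b b.2)))
  refine ⟨χ, fun g => sgn_sg w _, ?_⟩
  rintro ⟨c, hcH⟩ ⟨φ', hφ'⟩
  change sgn w c = -1 ↔ rs E E' c ∈ Y
  let φ : E.N →+* ℂ := φ'.comp (algebraMap E.N E'.N)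
  have hφ : IsConj φ (rs E E' c) := isConj_res hφ'
  have hcH' : rs E E' c ∈ H := hcH
  -- the real embedding of `K`
  have hreal : IsReal (φ.comp (algebraMap K E.N)) := by
    ext x
    change star (φ (x : E.N)) = φ (x : E.N)
    rw [← hφ.eq, hfix _ hcH']
  have h2 := hα _ hreal
  have hφw : φ' (w * w) = (φ.comp (algebraMap K E.N)) α := by
    rw [hw]
    rfl
  have h3 : (φ' (w * w)).im = 0 := by
    rw [hφw, ← Complex.conj_eq_iff_im]
    exact RingHom.congr_fun hreal α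
  have hS : φ.comp (algebraMap K E.N) ∈ S ↔ rs E E' c ∈ Y := by
    constructor
    · rintro ⟨φ₁, c₁, hc₁, hφ₁, he⟩
      have : IsGalois K E.N := inferInstance
      obtain ⟨σ, hσ⟩ := ComplexEmbedding.exists_comp_symm_eq_of_comp_eq (k := K) φ φ₁ he
      let h : Gal E := (σ.symm : E.N ≃ₐ[K] E.N).restrictScalars F
      have hh : h ∈ H := by
        have h4 : h ∈ K.fixingSubgroup := by
          rw [IntermediateField.mem_fixingSubgroup_iff]
          intro x hx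
          exact (σ.symm : E.N ≃ₐ[K] E.N).commutes ⟨x, hx⟩
        rw [IntermediateField.fixingSubgroup_fixedField] at h4
        exact h4
      have h5 : IsConj φ₁ (h⁻¹ * rs E E' c * h) := by
        have h6 := hφ.comp h
        have h7 : φ.comp ((h : Gal E) : E.N →+* E.N) = φ₁ := hσ
        rw [h7] at h6
        exact h6
      have h8 : h⁻¹ * rs E E' c * h = c₁ := by
        ext x
        apply φ₁.injective
        exact (h5.eq x).trans (hφ₁.eq x).symm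
      have h9 := hYc c₁ hc₁ h⁻¹ (H.inv_mem hh)
      rw [← h8] at h9
      have h10 : h⁻¹⁻¹ * (h⁻¹ * rs E E' c * h) * h⁻¹ = rs E E' c := by group
      rwa [h10] at h9
    · intro hc
      exact ⟨φ, _, hc, hφ, rfl⟩
  rw [← hS]
  constructor
  · intro h
    by_contra hcon
    have h4 := h2.2 hcon
    rw [← hφw] at h4
    rw [sgn_eq_neg] at h
    exact h (sqrt_pos hφ' h3 h4)
  · intro h
    have h4 := h2.1 h
    rw [← hφw] at h4
    rw [sgn_eq_neg, sqrt_neg hφ' h3 h4]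
    intro h5
    have h6 : w = 0 := self_eq_neg.mp h5.symm
    rw [h6] at h4
    simp at h4

/-- **Sign characters of the embeddings of `F`.** -/
theorem exists_signs_aux (E₀ : Ext F) :
    ∃ (E : Ext F) (_ : Algebra E₀.N E.N) (_ : IsScalarTower F E₀.N E.N),
      (∀ g : Gal E, rs E₀ E g = 1 → g * g = 1) ∧
      ∃ (s : (F →+* ℂ) → (Gal E →* ℂˣ)), (∀ v, Sg (s v)) ∧
      ∀ (v : F →+* ℂ) (φ : E.N →+* ℂ) (c : Gal E), IsCC φ c →
        (s v c = -1 ↔ φ.comp (algebraMap F E.N) = v) := by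
  classical
  choose a ha using fun v : F →+* ℂ => exists_sign F {v}
  obtain ⟨E, i1, i2, hE, hk⟩ := exists_sq E₀ (Finset.univ.image fun v => algebraMap F E₀.N (a v))
  choose w hw using fun v => hE (algebraMap F E₀.N (a v)) (Finset.mem_image_of_mem _ (Finset.mem_univ v))
  have hw' : ∀ v, w v * w v = algebraMap F E.N (a v) := fun v => by
    rw [hw v, ← IsScalarTower.algebraMap_apply F E₀.N E.N]
  refine ⟨E, i1, i2, hk, fun v => sgnHom (w v) (fun g => by rw [hw', AlgEquiv.commutes]),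
    fun v => sgnHom_sg _ _, fun v φ c hc => ?_⟩
  have hφ : IsConj φ c := isConj_iff.mpr hc
  change sgn (w v) c = -1 ↔ _
  have hreal : IsReal (φ.comp (algebraMap F E.N)) := by
    ext x
    change star (φ (algebraMap F E.N x)) = φ (algebraMap F E.N x)
    rw [← hc, AlgEquiv.commutes]
  have h2 := ha v _ hreal
  have hφw : φ (w v * w v) = (φ.comp (algebraMap F E.N)) (a v) := by
    rw [hw']
    rfl
  have h3 : (φ (w v * w v)).im = 0 := by
    rw [hφw, ← Complex.conj_eq_iff_im]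
    exact RingHom.congr_fun hreal (a v)
  constructor
  · intro h
    by_contra hcon
    have h4 := h2.2 hcon
    rw [← hφw] at h4
    rw [sgn_eq_neg] at h
    exact h (sqrt_pos hφ h3 h4)
  · intro h
    have h4 := h2.1 h
    rw [← hφw] at h4
    rw [sgn_eq_neg, sqrt_neg hφ h3 h4]
    intro h5
    have h6 : w v = 0 := self_eq_neg.mp h5.symm
    rw [h6] at h4
    simp at h4

instance subs (F : Type) [Field F] [NumberField F] : Subsingleton (Gal (⟨F⟩ : Ext F)) :=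
  ⟨fun a b => AlgEquiv.ext fun x => (AlgEquiv.commutes a x).trans (AlgEquiv.commutes b x).symm⟩

/-- composita in a class -/
def Comp (𝒩 : Ext F → Prop) : Prop :=
  ∀ E E' : Ext F, 𝒩 E → 𝒩 E' → ∃ (E₃ : Ext F) (_ : Algebra E.N E₃.N) (_ : IsScalarTower F E.N E₃.N)
    (_ : Algebra E'.N E₃.N) (_ : IsScalarTower F E'.N E₃.N), 𝒩 E₃

section A

variable {𝒞 : (G : Type) → [Group G] → Prop}

lemma compA (h : GrpClass 𝒞) : Comp (fun E : Ext F => 𝒞 (Gal E)) := by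
  intro E E' hE hE'
  obtain ⟨E₃, i1, i2, i3, i4, hk⟩ := exists_comp E E'
  exact ⟨E₃, i1, i2, i3, i4, h.sub _ _ _ (rs E E₃) (rs E' E₃) hk hE hE'⟩

lemma clsA (h : GrpClass 𝒞) : Cls (fun E : Ext F => 𝒞 (Gal E)) (fun E => CC F E.N) where
  inv := by
    intro E _ x hx
    obtain ⟨φ, hφ⟩ := (CC_iff E x).mp hx
    exact isCC_sq hφ
  conj := fun E _ x hx g => CC_conj hx g
  maps := fun E E' _ _ _ _ x hx => rs_CC hx
  lift := fun E E' _ _ _ _ x hx => CC_lift hx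
  sgn := by
    intro E hE H Y hY hYc
    obtain ⟨E', i1, i2, hk, χ, h1, h2⟩ := exists_sgn E H Y hY hYc
    exact ⟨E', i1, i2, h.two _ _ (rs E E') (rs_surj E E') hk hE, χ, h1, h2⟩

lemma real_of {E : Ext F} {φ : E.N →+* ℂ} {c : Gal E} (h : IsCC φ c) :
    IsReal (φ.comp (algebraMap F E.N)) := by
  ext x
  change star (φ (algebraMap F E.N x)) = φ (algebraMap F E.N x)
  rw [← h, AlgEquiv.commutes]

lemma isCC_rs {E E₃ : Ext F} [Algebra E.N E₃.N] [IsScalarTower F E.N E₃.N] {φ : E₃.N →+* ℂ}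
    {c : Gal E₃} (h : IsCC φ c) : IsCC (φ.comp (algebraMap E.N E₃.N)) (rs E E₃ c) := by
  intro y
  change φ (algebraMap E.N E₃.N (rs E E₃ c y)) = star (φ (algebraMap E.N E₃.N y))
  rw [rs_apply, h]

lemma comp_comp {E E₃ : Ext F} [Algebra E.N E₃.N] [IsScalarTower F E.N E₃.N] (φ : E₃.N →+* ℂ) :
    (φ.comp (algebraMap E.N E₃.N)).comp (algebraMap F E.N) = φ.comp (algebraMap F E₃.N) := by
  rw [RingHom.comp_assoc, ← IsScalarTower.algebraMap_eq]

lemma sgsA (h : GrpClass 𝒞) : ∃ (E₀ : Ext F) (s : (F →+* ℂ) → (Gal E₀ →* ℂˣ)),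
    Sgs (fun E : Ext F => 𝒞 (Gal E)) (fun E => CC F E.N) E₀ s := by
  classical
  obtain ⟨E₀, i1, i2, hk, s, hs, hs'⟩ := exists_signs_aux (⟨F⟩ : Ext F)
  have h0 : 𝒞 (Gal E₀) := h.two _ _ (rs ⟨F⟩ E₀) (rs_surj ⟨F⟩ E₀) hk (h.one _)
  refine ⟨E₀, s, h0, hs, fun E hE => ?_, ?_⟩
  · exact compA h E E₀ hE h0
  · intro E E₃ j1 j2 j3 j4 hE hE₃ n ρ d hd c hcc
    obtain ⟨φ, hφ⟩ := (CC_iff E₃ c).mp hcc
    have e1 := isCC_rs (E := E) hφ
    have e2 := isCC_rs (E := E₀) hφ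
    have e3 := comp_comp (E := E) φ
    have e4 := comp_comp (E := E₀) φ
    set κ : F →+* ℂ := φ.comp (algebraMap F E₃.N) with hκ
    rw [hd _ _ e1, e3, Finset.sum_eq_single κ]
    · have h5 : s κ (rs E₀ E₃ c) = -1 := (hs' κ _ _ e2).mpr e4
      rw [h5, Units.val_neg, Units.val_one]
      ring
    · intro σ _ hσ
      have h5 : s σ (rs E₀ E₃ c) ≠ -1 := fun h => hσ ((hs' σ _ _ e2).mp h ▸ e4)
      have h6 : s σ (rs E₀ E₃ c) = 1 := (hs σ _).resolve_right h5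
      rw [h6, Units.val_one, sub_self, mul_zero]
    · intro h
      exact absurd (Finset.mem_univ _) h

end A

section B

variable {𝒞 : (G : Type) → [Group G] → Prop}

lemma rc_comp {E E' E₃ : Ext F} [Algebra E.N E₃.N] [IsScalarTower F E.N E₃.N] [Algebra E'.N E₃.N]
    [IsScalarTower F E'.N E₃.N] (hk : ∀ g : Gal E₃, rs E E₃ g = 1 → rs E' E₃ g = 1 → g = 1)
    (h : RealOrCM E) (h' : RealOrCM E') : RealOrCM E₃ := by
  intro φ φ' c c' hc hc'
  have h1 : c * c' = 1 := by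
    refine hk _ ?_ ?_
    · rw [map_mul, h _ _ _ _ (isCC_rs (E := E) hc) (isCC_rs (E := E) hc')]
      exact isCC_sq (isCC_rs (E := E) hc')
    · rw [map_mul, h' _ _ _ _ (isCC_rs (E := E') hc) (isCC_rs (E := E') hc')]
      exact isCC_sq (isCC_rs (E := E') hc')
  have h2 := isCC_sq hc'
  exact (mul_right_cancel (h1.trans h2.symm))

lemma compB (h : GrpClass 𝒞) : Comp (fun E : Ext F => RealOrCM E ∧ 𝒞 (Gal E)) := by
  intro E E' hE hE'
  obtain ⟨E₃, i1, i2, i3, i4, hk⟩ := exists_comp E E'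
  exact ⟨E₃, i1, i2, i3, i4, rc_comp hk hE.1 hE'.1, h.sub _ _ _ (rs E E₃) (rs E' E₃) hk hE.2 hE'.2⟩

lemma cc_j {E : Ext F} {j : E.N} (hj : j * j = -1) {φ : E.N →+* ℂ} {c : Gal E} (hc : IsCC φ c) :
    c j = -j := by
  have hφ : IsConj φ c := isConj_iff.mpr hc
  refine sqrt_neg hφ ?_ ?_
  · rw [hj, map_neg, map_one]; simp
  · rw [hj, map_neg, map_one]; simp

lemma exists_odd (F : Type) [Field F] [NumberField F] (h : GrpClass 𝒞) :
    ∃ (E₀ : Ext F), (RealOrCM E₀ ∧ 𝒞 (Gal E₀)) ∧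
      ∃ s : Gal E₀ →* ℂˣ, Sg s ∧ ∀ c ∈ CC F E₀.N, s c = -1 := by
  obtain ⟨E₀, j, hj, hk⟩ := exists_I F
  have hj' : ∀ g : Gal E₀, g j = j ∨ g j = -j := by
    intro g
    have h1 : g j * g j = j * j := by
      rw [← map_mul, hj, map_neg, map_one]
    exact mul_self_eq_mul_self_iff.mp h1
  have hsq : ∀ g : Gal E₀, g * g = 1 := by
    intro g
    refine hk _ ?_
    change g (g j) = j
    rcases hj' g with h1 | h1
    · rw [h1, h1]
    · rw [h1, map_neg, h1, neg_neg]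
  refine ⟨E₀, ⟨?_, ?_⟩, odd_i hj⟩
  · intro φ φ' c c' hc hc'
    have h1 : c * c' = 1 := by
      refine hk _ ?_
      change c (c' j) = j
      rw [cc_j hj hc', map_neg, cc_j hj hc, neg_neg]
    exact (mul_right_cancel (h1.trans (isCC_sq hc').symm))
  · exact h.two (Gal (⟨F⟩ : Ext F)) (Gal E₀) 1 (fun x => ⟨1, Subsingleton.elim _ _⟩)
      (fun g _ => hsq g) (h.one _)

lemma neg_one_ne : (1 : ℂˣ) ≠ -1 := by
  intro h
  have h1 := congrArg (fun u : ℂˣ => (u : ℂ)) h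
  simp only [Units.val_one, Units.val_neg] at h1
  norm_num at h1

lemma clsB (h : GrpClass 𝒞) :
    Cls (fun E : Ext F => RealOrCM E ∧ 𝒞 (Gal E)) (fun E => CC F E.N) where
  inv := by
    intro E _ x hx
    obtain ⟨φ, hφ⟩ := (CC_iff E x).mp hx
    exact isCC_sq hφ
  conj := fun E _ x hx g => CC_conj hx g
  maps := fun E E' _ _ _ _ x hx => rs_CC hx
  lift := fun E E' _ _ _ _ x hx => CC_lift hx
  sgn := by
    classical
    intro E hE H Y hY hYc
    obtain ⟨E₀, h0, s, hs, hs'⟩ := exists_odd F h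
    obtain ⟨E', i1, i2, i3, i4, hk⟩ := exists_comp E E₀
    refine ⟨E', i1, i2, ⟨rc_comp hk hE.1 h0.1, h.sub _ _ _ (rs E E') (rs E₀ E') hk hE.2 h0.2⟩, ?_⟩
    by_cases hne : Y.Nonempty
    · obtain ⟨y, hy⟩ := hne
      refine ⟨(s.comp (rs E₀ E')).comp (Subgroup.subtype _), fun g => hs _, fun x hx => ?_⟩
      have h1 : s (rs E₀ E' x) = -1 := hs' _ (rs_CC hx)
      have h2 : rs E E' x = y := by
        obtain ⟨φ, hφ⟩ := (CC_iff E _).mp (rs_CC (E := E) hx)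
        obtain ⟨φ', hφ'⟩ := (CC_iff E _).mp (hY y hy).1
        exact hE.1 _ _ _ _ hφ hφ'
      exact ⟨fun _ => h2 ▸ hy, fun _ => h1⟩
    · refine ⟨1, fun g => Or.inl rfl, fun x _ => ⟨fun h1 => absurd h1 neg_one_ne, fun h1 => ?_⟩⟩
      exact absurd ⟨_, h1⟩ hne

/-- complex conjugations over real places -/
lemma exists_cc (E : Ext F) {σ : F →+* ℂ} (hσ : IsReal σ) :
    ∃ (φ : E.N →+* ℂ) (c : Gal E), φ.comp (algebraMap F E.N) = σ ∧ IsCC φ c := by
  let φ : E.N →+* ℂ := ComplexEmbedding.lift E.N σ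
  have h1 : φ.comp (algebraMap F E.N) = σ := ComplexEmbedding.lift_comp_algebraMap _ _
  obtain ⟨c, hc⟩ := exists_conj (K := F) (φ := φ) (by rw [h1]; exact hσ)
  exact ⟨φ, c, h1, isConj_iff.mp hc⟩

lemma sgsB (h : GrpClass 𝒞) : ∃ (E₀ : Ext F) (s : (F →+* ℂ) → (Gal E₀ →* ℂˣ)),
    Sgs (fun E : Ext F => RealOrCM E ∧ 𝒞 (Gal E)) (fun E => CC F E.N) E₀ s := by
  classical
  obtain ⟨E₀, h0, s₀, hs, hs'⟩ := exists_odd F h
  by_cases hF : ∃ σ₀ : F →+* ℂ, IsReal σ₀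
  · obtain ⟨σ₀, hσ₀⟩ := hF
    refine ⟨E₀, fun σ => if σ = σ₀ then s₀ else 1, h0, fun σ => ?_,
      fun E hE => compB h E E₀ hE h0, ?_⟩
    · by_cases hσ : σ = σ₀
      · rw [if_pos hσ]
        exact hs
      · rw [if_neg hσ]
        exact fun g => Or.inl rfl
    · intro E E₃ j1 j2 j3 j4 hE hE₃ n ρ d hd c hcc
      obtain ⟨φ, hφ⟩ := (CC_iff E₃ c).mp hcc
      have e1 := isCC_rs (E := E) hφ
      obtain ⟨φ₁, c₁, h1, h2⟩ := exists_cc E hσ₀
      have h3 : rs E E₃ c = c₁ := hE.1 _ _ _ _ e1 h2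
      rw [h3, hd _ _ h2, h1, Finset.sum_eq_single σ₀]
      · have h5 : s₀ (rs E₀ E₃ c) = -1 := hs' _ (rs_CC hcc)
        rw [if_pos rfl, h5, Units.val_neg, Units.val_one]
        ring
      · intro σ _ hσ
        rw [if_neg hσ, MonoidHom.one_apply, Units.val_one, sub_self, mul_zero]
      · intro h
        exact absurd (Finset.mem_univ _) h
  · refine ⟨E₀, fun σ => 1, h0, fun σ g => Or.inl rfl, fun E hE => compB h E E₀ hE h0, ?_⟩
    intro E E₃ j1 j2 j3 j4 hE hE₃ n ρ d hd c hcc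
    obtain ⟨φ, hφ⟩ := (CC_iff E₃ c).mp hcc
    exact absurd ⟨_, real_of hφ⟩ hF

end B

section C

variable {𝒞 : (G : Type) → [Group G] → Prop}

lemma compC (h : GrpClass 𝒞) : Comp (fun E : Ext F => TotReal E ∧ 𝒞 (Gal E)) := by
  intro E E' hE hE'
  obtain ⟨E₃, i1, i2, i3, i4, hk⟩ := exists_comp E E'
  refine ⟨E₃, i1, i2, i3, i4, fun φ c hc => ?_,
    h.sub _ _ _ (rs E E₃) (rs E' E₃) hk hE.2 hE'.2⟩
  exact hk c (hE.1 _ _ (isCC_rs (E := E) hc)) (hE'.1 _ _ (isCC_rs (E := E') hc))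

lemma clsC (h : GrpClass 𝒞) :
    Cls (fun E : Ext F => TotReal E ∧ 𝒞 (Gal E)) (fun _ => ∅) where
  inv := fun E _ x hx => absurd hx (Set.notMem_empty x)
  conj := fun E _ x hx g => absurd hx (Set.notMem_empty x)
  maps := fun E E' _ _ _ _ x hx => absurd hx (Set.notMem_empty x)
  lift := fun E E' _ _ _ _ x hx => absurd hx (Set.notMem_empty x)
  sgn := by
    intro E hE H Y hY hYc
    exact ⟨E, Algebra.id E.N, IsScalarTower.right, hE, 1, fun g => Or.inl rfl,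
      fun x hx => absurd hx (Set.notMem_empty _)⟩

lemma sgsC (h : GrpClass 𝒞) : ∃ (E₀ : Ext F) (s : (F →+* ℂ) → (Gal E₀ →* ℂˣ)),
    Sgs (fun E : Ext F => TotReal E ∧ 𝒞 (Gal E)) (fun _ => ∅) E₀ s := by
  have h0 : TotReal (⟨F⟩ : Ext F) ∧ 𝒞 (Gal (⟨F⟩ : Ext F)) :=
    ⟨fun φ c _ => Subsingleton.elim _ _, h.one _⟩
  exact ⟨⟨F⟩, fun _ => 1, h0, fun _ _ => Or.inl rfl, fun E hE => compC h E _ hE h0,
    fun E E₃ _ _ _ _ _ _ _ _ _ _ c hc => absurd hc (Set.notMem_empty c)⟩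

end C

end Pool.Agent.Run7.h810.DW
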