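import Mathlib
import Pool.Agent.Run7.h810.DW.Inst

/-!
# Given periods
-/

set_option autoImplicit false
set_option linter.unusedSectionVars false
set_option linter.unusedVariables false

namespace Pool.Agent.Run7.h810.DW

open NumberField NumberField.ComplexEmbedding Pool.Agent.R389 Pool.Agent.K4H74.ST
  Pool.Agent.W446.AS Pool.Agent.H302R2 Pool.Agent.H302R3 Pool.Agent.H541R3.ART
  Pool.Agent.K4H74
open Pool.Agent.Run7.h810.DF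

variable {F : Type} [Field F] [NumberField F]

/-- the multiplicities, at all embeddings -/
def Mlt {E : Ext F} {n : ℕ} (ρ : Rep E n) (d : (F →+* ℂ) → ℕ) : Prop :=
  (∀ (φ : E.N →+* ℂ) (c : Gal E), IsCC φ c → chr ρ c = n - 2 * d (φ.comp (algebraMap F E.N))) ∧
    ∀ σ, ¬ IsReal σ → d σ = 0

lemma mlt_of_sys {E : Ext F} {Φ : (F →+* ℂ) → (E.N →+* ℂ)} (hΦ : IsSys Φ) {n : ℕ} {ρ : Rep E n}
    {d : (F →+* ℂ) → ℕ} (hd : ∀ σ c, IsCC (Φ σ) c → chr ρ c = n - 2 * d σ)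
    (hd' : ∀ σ, (¬ ∃ c : Gal E, IsCC (Φ σ) c) → d σ = 0) : Mlt ρ d := by
  constructor
  · intro φ c hc
    obtain ⟨h, hh⟩ := exists_aut (Φ (φ.comp (algebraMap F E.N))) φ (hΦ _)
    have h1 : IsCC (Φ (φ.comp (algebraMap F E.N))) (h * c * h⁻¹) := by
      intro y
      have h2 : h (h⁻¹ y) = y := by
        change (h * h⁻¹) y = y
        rw [mul_inv_cancel]
        rfl
      change Φ _ (h (c (h⁻¹ y))) = _
      rw [hh, hc, ← hh, h2]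
    rw [← chr_class ρ c h]
    exact hd _ _ h1
  · intro σ hσ
    refine hd' σ ?_
    rintro ⟨c, hc⟩
    have h1 := real_of hc
    rw [hΦ σ] at h1
    exact hσ h1

lemma Mlt.sys {E : Ext F} {Φ : (F →+* ℂ) → (E.N →+* ℂ)} (hΦ : IsSys Φ) {n : ℕ} {ρ : Rep E n}
    {d : (F →+* ℂ) → ℕ} (h : Mlt ρ d) : (∀ σ c, IsCC (Φ σ) c → chr ρ c = n - 2 * d σ) ∧
      ∀ σ, (¬ ∃ c : Gal E, IsCC (Φ σ) c) → d σ = 0 := by
  constructor
  · intro σ c hc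
    rw [h.1 _ c hc, hΦ σ]
  · intro σ hσ
    refine h.2 σ fun hr => hσ ?_
    obtain ⟨c, hc⟩ := exists_conj (K := F) (φ := Φ σ) (by rw [hΦ σ]; exact hr)
    exact ⟨c, isConj_iff.mp hc⟩

lemma exists_mlt {E : Ext F} {n : ℕ} (ρ : Rep E n) : ∃ d : (F →+* ℂ) → ℕ, Mlt ρ d := by
  obtain ⟨Φ, hΦ⟩ := exists_sys E
  obtain ⟨d, hd, hd'⟩ := exists_mult Φ ρ
  exact ⟨d, mlt_of_sys hΦ hd hd'⟩

lemma Mlt.same {E E' : Ext F} {n : ℕ} {ρ : Rep E n} {ρ' : Rep E' n} {d : (F →+* ℂ) → ℕ}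
    (h : Mlt ρ d) (hs : SameSig ρ ρ') : Mlt ρ' d := by
  refine ⟨fun φ' c' hc' => ?_, h.2⟩
  obtain ⟨φ, c, h1, h2⟩ := exists_cc E (real_of hc')
  rw [← hs φ φ' c c' h1 h2 hc', h.1 φ c h2, h1]

lemma alg {τ : ℂ ≃+* ℂ} {X X' R R' P P₀ P' P₀' : ℂ} (hX : X ≠ 0) (hX' : X' ≠ 0) (hR : R ≠ 0)
    (hR' : R' ≠ 0) (hP : P ≠ 0) (hP' : P' ≠ 0) (hP₀ : P₀ ≠ 0) (hP₀' : P₀' ≠ 0)
    (h : τ (X / (R * P)) = X' / (R' * P')) (h₀ : τ (X / (R * P₀)) = X' / (R' * P₀')) :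
    τ (P / P₀) = P' / P₀' := by
  have h1 : P / P₀ = (X / (R * P₀)) / (X / (R * P)) := by field_simp
  have h2 : P' / P₀' = (X' / (R' * P₀')) / (X' / (R' * P')) := by field_simp
  rw [h1, h2, map_div₀, h, h₀]

lemma alg' {τ : ℂ ≃+* ℂ} {X X' R R' P P₀ P' P₀' : ℂ} (hR : R ≠ 0)
    (hR' : R' ≠ 0) (hP : P ≠ 0) (hP' : P' ≠ 0) (hP₀ : P₀ ≠ 0) (hP₀' : P₀' ≠ 0)
    (h : τ (P / P₀) = P' / P₀') (h₀ : τ (X / (R * P₀)) = X' / (R' * P₀')) :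
    τ (X / (R * P)) = X' / (R' * P') := by
  have h1 : X / (R * P) = (X / (R * P₀)) / (P / P₀) := by field_simp
  have h2 : X' / (R' * P') = (X' / (R' * P₀')) / (P' / P₀') := by field_simp
  rw [h1, h2, map_div₀, h, h₀]

section

variable {C : Type} [Field C] {t : Ideal (𝓞 F) → ℕ → C} {w : ℂ →₀ ℤ} {r : ℤ} {b : ℝ}
  {𝒩 : Ext F → Prop} {𝒳 : (E : Ext F) → Set (Gal E)}

/-- **Given periods.** -/
theorem fix (hcls : Cls 𝒩 𝒳) (hX : ∀ E, 𝒩 E → ∀ c ∈ CC F E.N, c ∈ 𝒳 E ∨ c = 1)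
    {E₀ : Ext F} {s : (F →+* ℂ) → (Gal E₀ →* ℂˣ)} (hs : Sgs 𝒩 𝒳 E₀ s)
    {A : (C →+* ℂ) → ℂ} {B : (C →+* ℂ) → (F →+* ℂ) → ℂ} (hA : ∀ e, A e ≠ 0)
    (hB : ∀ e σ, B e σ ≠ 0) (hC : Quo w r t b 𝒩) (h1 : DelOne w r t b A B 𝒩) :
    DelAll w r t b A B 𝒩 := by
  classical
  obtain ⟨A₀, B₀, hA₀, hB₀, h₀⟩ := per hcls hX hs hC
  intro e τ E hE n ρ
  refine ⟨(h₀ e τ E hE n ρ).1, ?_⟩
  set e' : C →+* ℂ := (τ : ℂ →+* ℂ).comp e with he'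
  -- the quotients of the periods
  let P : (C →+* ℂ) → ℕ → ((F →+* ℂ) → ℕ) → ℂ := fun e n d => A e ^ n * ∏ σ, B e σ ^ d σ
  let P₀ : (C →+* ℂ) → ℕ → ((F →+* ℂ) → ℕ) → ℂ := fun e n d => A₀ e ^ n * ∏ σ, B₀ e σ ^ d σ
  have hP : ∀ e n d, P e n d ≠ 0 := fun e n d => mul_ne_zero (pow_ne_zero _ (hA e))
    (Finset.prod_ne_zero_iff.mpr fun σ _ => pow_ne_zero _ (hB e σ))
  have hP₀ : ∀ e n d, P₀ e n d ≠ 0 := fun e n d => mul_ne_zero (pow_ne_zero _ (hA₀ e))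
    (Finset.prod_ne_zero_iff.mpr fun σ _ => pow_ne_zero _ (hB₀ e σ))
  have claim : ∀ (E₁ : Ext F), 𝒩 E₁ → ∀ (ρ₁ : Rep E₁ 1) (d : (F →+* ℂ) → ℕ), Mlt ρ₁ d →
      τ (P e 1 d / P₀ e 1 d) = P e' 1 d / P₀ e' 1 d := by
    intro E₁ hE₁ ρ₁ d hd
    obtain ⟨E', ρ', hE', hsig, hdel⟩ := h1 E₁ hE₁ ρ₁
    have hd' := hd.same hsig
    obtain ⟨⟨f, hf⟩, f', hf'⟩ := (h₀ e τ E' hE' 1 ρ').1
    obtain ⟨Φ, hΦ⟩ := exists_sys E'
    obtain ⟨x, hx⟩ := exists_res E'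
    obtain ⟨g, hg⟩ := exists_act τ hΦ
    obtain ⟨d1, d2⟩ := hd'.sys hΦ
    have q1 := hdel e τ Φ x d f f' hΦ (hx Φ 1 ρ') d1 d2 hf hf'
    have q2 := (h₀ e τ E' hE' 1 ρ').2 Φ x d f f' hΦ (hx Φ 1 ρ') d1 d2 hf hf'
    rw [mul_assoc, mul_assoc] at q1 q2
    have m1 : res Φ x (conj τ ρ') ≠ 0 := by
      rw [res_conj τ hg]
      exact mul_ne_zero (dt_ne τ g ρ') ((map_ne_zero τ).mpr (hx Φ 1 ρ'))
    exact alg (mono_ne hf.ne) (mono_ne hf'.ne) (zpow_ne_zero r (hx Φ 1 ρ')) (zpow_ne_zero r m1)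
      (hP e 1 d) (hP e' 1 d) (hP₀ e 1 d) (hP₀ e' 1 d) q1 q2
  intro Φ x d f f' hΦ hx hd hd' hf hf'
  have hM : Mlt ρ d := mlt_of_sys hΦ hd hd'
  -- the multiplicities of the sign characters
  choose dd hdd using fun j : F →+* ℂ => exists_mlt (lr E₀ (s j))
  have hsum : ∀ σ, d σ = ∑ j, d j * dd j σ := by
    intro σ
    by_cases hσ : IsReal σ
    · obtain ⟨E₃, i1, i2, i3, i4, hE₃⟩ := hs.comp E hE
      obtain ⟨φ, c, e1, e2⟩ := exists_cc E₃ hσ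
      have k1 := hM.1 _ _ (isCC_rs (E := E) e2)
      rw [comp_comp, e1] at k1
      have k2 : ∀ j, ((s j (rs E₀ E₃ c) : ℂˣ) : ℂ) = 1 - 2 * dd j σ := by
        intro j
        have k3 := (hdd j).1 _ _ (isCC_rs (E := E₀) e2)
        rw [comp_comp, e1, chr_lr] at k3
        rw [Nat.cast_one] at k3
        exact k3
      rcases hX E₃ hE₃ c ((CC_iff E₃ c).mpr ⟨φ, e2⟩) with h | h
      · have k4 := hs.val E E₃ hE hE₃ n ρ d hM.1 c h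
        rw [k1] at k4
        have k5 : (d σ : ℂ) = ∑ j, (d j : ℂ) * dd j σ := by
          have k6 : ∑ j, (d j : ℂ) * (((s j (rs E₀ E₃ c) : ℂˣ) : ℂ) - 1)
              = -2 * ∑ j, (d j : ℂ) * dd j σ := by
            rw [Finset.mul_sum]
            refine Finset.sum_congr rfl fun j _ => ?_
            rw [k2 j]
            ring
          rw [k6] at k4
          linear_combination (-1 / 2 : ℂ) * k4
        exact_mod_cast k5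
      · rw [h, map_one, chr_one] at k1
        have k4 : d σ = 0 := by
          have k5 : (d σ : ℂ) = 0 := by linear_combination (1 / 2 : ℂ) * k1
          exact_mod_cast k5
        rw [k4]
        symm
        refine Finset.sum_eq_zero fun j _ => ?_
        have k5 := k2 j
        rw [h, map_one, map_one, Units.val_one] at k5
        have k6 : dd j σ = 0 := by
          have k7 : (dd j σ : ℂ) = 0 := by linear_combination (1 / 2 : ℂ) * k5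
          exact_mod_cast k7
        rw [k6, mul_zero]
    · rw [hM.2 σ hσ]
      symm
      refine Finset.sum_eq_zero fun j _ => ?_
      rw [(hdd j).2 σ hσ, mul_zero]
  have c0 : τ (P e 1 0 / P₀ e 1 0) = P e' 1 0 / P₀ e' 1 0 := by
    refine claim E₀ hs.mem (lr E₀ 1) 0 ⟨fun φ c _ => ?_, fun _ _ => rfl⟩
    rw [chr_lr]
    simp [lc]
  have a0 : τ (A e / A₀ e) = A e' / A₀ e' := by
    simpa [P, P₀] using c0
  have b0 : ∀ j, τ (∏ σ, (B e σ / B₀ e σ) ^ dd j σ) = ∏ σ, (B e' σ / B₀ e' σ) ^ dd j σ := by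
    intro j
    have c1 := claim E₀ hs.mem (lr E₀ (s j)) (dd j) (hdd j)
    have c2 : ∀ e, P e 1 (dd j) / P₀ e 1 (dd j)
        = (A e / A₀ e) * ∏ σ, (B e σ / B₀ e σ) ^ dd j σ := by
      intro e
      simp only [P, P₀, pow_one, div_pow, Finset.prod_div_distrib]
      rw [mul_div_mul_comm]
    rw [c2, c2, map_mul, a0] at c1
    exact mul_left_cancel₀ (div_ne_zero (hA e') (hA₀ e')) c1
  have key : τ (P e n d / P₀ e n d) = P e' n d / P₀ e' n d := by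
    have c2 : ∀ e, P e n d / P₀ e n d
        = (A e / A₀ e) ^ n * ∏ j, (∏ σ, (B e σ / B₀ e σ) ^ dd j σ) ^ d j := by
      intro e
      have c3 : ∏ j, (∏ σ, (B e σ / B₀ e σ) ^ dd j σ) ^ d j = ∏ σ, (B e σ / B₀ e σ) ^ d σ := by
        simp_rw [← Finset.prod_pow]
        rw [Finset.prod_comm]
        refine Finset.prod_congr rfl fun σ _ => ?_
        rw [hsum σ, ← Finset.prod_pow_eq_pow_sum]
        refine Finset.prod_congr rfl fun j _ => ?_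
        rw [← pow_mul, mul_comm]
      rw [c3]
      simp only [P, P₀, div_pow, Finset.prod_div_distrib]
      rw [mul_div_mul_comm]
    rw [c2, c2, map_mul, map_pow, a0, map_prod]
    simp only [map_pow, b0]
  obtain ⟨g, hg⟩ := exists_act τ hΦ
  have m1 : res Φ x (conj τ ρ) ≠ 0 := by
    rw [res_conj τ hg]
    exact mul_ne_zero (dt_ne τ g ρ) ((map_ne_zero τ).mpr hx)
  have q2 := (h₀ e τ E hE n ρ).2 Φ x d f f' hΦ hx hd hd' hf hf'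
  rw [mul_assoc, mul_assoc] at q2 ⊢
  exact alg' (zpow_ne_zero r hx) (zpow_ne_zero r m1)
      (hP e n d) (hP e' n d) (hP₀ e n d) (hP₀ e' n d) key q2

theorem one_of_all {A : (C →+* ℂ) → ℂ} {B : (C →+* ℂ) → (F →+* ℂ) → ℂ}
    (h : DelAll w r t b A B 𝒩) : DelOne w r t b A B 𝒩 := by
  intro E hE ρ
  refine ⟨E, ρ, hE, fun φ φ' c c' h1 hc hc' => ?_, fun e τ => (h e τ E hE 1 ρ).2⟩
  obtain ⟨d, hd⟩ := exists_mlt ρ
  rw [hd.1 φ c hc, hd.1 φ' c' hc', h1]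

/-- both equivalences -/
theorem both (hcls : Cls 𝒩 𝒳) (hX : ∀ E, 𝒩 E → ∀ c ∈ CC F E.N, c ∈ 𝒳 E ∨ c = 1)
    (hs : ∃ (E₀ : Ext F) (s : (F →+* ℂ) → (Gal E₀ →* ℂˣ)), Sgs 𝒩 𝒳 E₀ s) :
    (Deligne w r t b 𝒩 ↔ Quo w r t b 𝒩) ∧
    ∀ (A : (C →+* ℂ) → ℂ) (B : (C →+* ℂ) → (F →+* ℂ) → ℂ), (∀ e, A e ≠ 0) → (∀ e σ, B e σ ≠ 0) →
      (DelAll w r t b A B 𝒩 ↔ Quo w r t b 𝒩 ∧ DelOne w r t b A B 𝒩) := by
  obtain ⟨E₀, s, hs⟩ := hs
  exact ⟨⟨conv, per hcls hX hs⟩, fun A B hA hB =>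
    ⟨fun h => ⟨conv ⟨A, B, hA, hB, h⟩, one_of_all h⟩, fun h => fix hcls hX hs hA hB h.1 h.2⟩⟩

end

section

variable {C : Type} [Field C] (t : Ideal (𝓞 F) → ℕ → C) (w : ℂ →₀ ℤ) (r : ℤ) (b : ℝ)
  {𝒞 : (G : Type) → [Group G] → Prop}

theorem bothA (h : GrpClass 𝒞) :
    (Deligne w r t b (fun E => 𝒞 (Gal E)) ↔ Quo w r t b (fun E => 𝒞 (Gal E))) ∧
    ∀ (A : (C →+* ℂ) → ℂ) (B : (C →+* ℂ) → (F →+* ℂ) → ℂ), (∀ e, A e ≠ 0) → (∀ e σ, B e σ ≠ 0) →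
      (DelAll w r t b A B (fun E => 𝒞 (Gal E)) ↔
        Quo w r t b (fun E => 𝒞 (Gal E)) ∧ DelOne w r t b A B (fun E => 𝒞 (Gal E))) :=
  both (clsA h) (fun _ _ _ hc => Or.inl hc) (sgsA h)

theorem bothB (h : GrpClass 𝒞) :
    (Deligne w r t b (fun E => RealOrCM E ∧ 𝒞 (Gal E)) ↔
      Quo w r t b (fun E => RealOrCM E ∧ 𝒞 (Gal E))) ∧
    ∀ (A : (C →+* ℂ) → ℂ) (B : (C →+* ℂ) → (F →+* ℂ) → ℂ), (∀ e, A e ≠ 0) → (∀ e σ, B e σ ≠ 0) →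
      (DelAll w r t b A B (fun E => RealOrCM E ∧ 𝒞 (Gal E)) ↔
        Quo w r t b (fun E => RealOrCM E ∧ 𝒞 (Gal E)) ∧
          DelOne w r t b A B (fun E => RealOrCM E ∧ 𝒞 (Gal E))) :=
  both (clsB h) (fun _ _ _ hc => Or.inl hc) (sgsB h)

theorem bothC (h : GrpClass 𝒞) :
    (Deligne w r t b (fun E => TotReal E ∧ 𝒞 (Gal E)) ↔
      Quo w r t b (fun E => TotReal E ∧ 𝒞 (Gal E))) ∧
    ∀ (A : (C →+* ℂ) → ℂ) (B : (C →+* ℂ) → (F →+* ℂ) → ℂ), (∀ e, A e ≠ 0) → (∀ e σ, B e σ ≠ 0) →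
      (DelAll w r t b A B (fun E => TotReal E ∧ 𝒞 (Gal E)) ↔
        Quo w r t b (fun E => TotReal E ∧ 𝒞 (Gal E)) ∧
          DelOne w r t b A B (fun E => TotReal E ∧ 𝒞 (Gal E))) :=
  both (clsC h) (fun E hE c hc => Or.inr (by
    obtain ⟨φ, hφ⟩ := (CC_iff E c).mp hc
    exact hE.1 φ c hφ)) (sgsC h)

end

end Pool.Agent.Run7.h810.DW
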