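import Mathlib
import Pool.Agent.Run7.h810.DW.Fix

/-!
# Classes of groups; totally imaginary base fields
-/

set_option autoImplicit false
set_option linter.unusedSectionVars false
set_option linter.unusedVariables false

namespace Pool.Agent.Run7.h810.DW

open NumberField NumberField.ComplexEmbedding Pool.Agent.K4H74.ST
open Pool.Agent.Run7.h810.DF

lemma inj_of {G G₁ G₂ : Type} [Group G] [Group G₁] [Group G₂] {f : G →* G₁} {f' : G →* G₂}
    (h : ∀ g, f g = 1 → f' g = 1 → g = 1) : Function.Injective (f.prod f') := by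
  rw [injective_iff_map_eq_one]
  intro g hg
  exact h g (congrArg Prod.fst hg) (congrArg Prod.snd hg)

theorem grp_all : GrpClass (fun _ _ => True) :=
  ⟨fun _ _ _ => trivial, fun _ _ _ _ _ _ _ _ _ _ _ _ => trivial,
    fun _ _ _ _ _ _ _ _ _ => trivial⟩

theorem grp_solvable : GrpClass (fun G _ => Group.IsSolvable G) where
  one := fun G _ _ => Group.isSolvable_of_comm fun a b => Subsingleton.elim _ _
  sub := fun G G₁ G₂ _ _ _ _ f f' h h₁ h₂ => by
    have : Group.IsSolvable G₁ := h₁
    have : Group.IsSolvable G₂ := h₂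
    exact Group.isSolvable_of_isSolvable_injective (inj_of h)
  two := fun G G' _ _ _ π hπ h hG => by
    have : Group.IsSolvable G := hG
    have h1 : Group.IsSolvable π.ker := Group.isSolvable_of_comm fun a b => by
      have h2 : ∀ c : π.ker, c * c = 1 := fun c => Subtype.ext (h _ c.2)
      have h3 : ∀ c : π.ker, c⁻¹ = c := fun c => inv_eq_of_mul_eq_one_left (h2 c)
      rw [← h3 (a * b), mul_inv_rev, h3, h3]
    exact Group.isSolvable_of_ker_le_range π.ker.subtype π (by rw [Subgroup.range_subtype])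

theorem grp_two : GrpClass (fun G _ => IsPGroup 2 G) where
  one := fun G _ _ g => ⟨0, Subsingleton.elim _ _⟩
  sub := fun G G₁ G₂ _ _ _ _ f f' h h₁ h₂ g => by
    obtain ⟨k, hk⟩ := h₁ (f g)
    obtain ⟨l, hl⟩ := h₂ (f' g)
    refine ⟨k + l, h _ ?_ ?_⟩
    · rw [map_pow, pow_add, pow_mul, hk, one_pow]
    · rw [map_pow, pow_add, mul_comm, pow_mul, hl, one_pow]
  two := fun G G' _ _ _ π hπ h hG g => by
    obtain ⟨k, hk⟩ := hG (π g)
    refine ⟨k + 1, ?_⟩
    rw [pow_succ, pow_mul, pow_two]
    exact h _ (by rw [map_pow, hk])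

end Pool.Agent.Run7.h810.DW
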