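import Mathlib
import Pool.Agent.Run7.h810.DF.Defs

/-!
# Ratios of successive values of twisted L-functions over a totally imaginary field
-/

set_option autoImplicit false

namespace Pool.Agent.Run7.h810.DW

open NumberField Pool.Agent.Run7.h810.DF

variable {F : Type} [Field F] [NumberField F]

/-- **The relation for the ratio `L(m, M ⊗ ρ) / L(m + 1, M ⊗ ρ)`** with the constants `κ`, for an
embedding `e` of the coefficient field `C` of `M` and an automorphism `τ` of `ℂ`: the ratio is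
`κ e ^ n` up to a number which `τ` maps to the number for the conjugates of `M` and `ρ`. -/
def RatioDel {C : Type} [Field C] (m : ℂ) (t : Ideal (𝓞 F) → ℕ → C) (b : ℝ)
    (κ : (C →+* ℂ) → ℂ) (e : C →+* ℂ) (τ : ℂ ≃+* ℂ) {E : Ext F} {n : ℕ} (ρ : Rep E n) : Prop :=
  ∀ f f' : ℂ → ℂ, IsL (fun p k => e (t p k)) b (chr ρ) f →
    IsL (fun p k => τ (e (t p k))) b (chr (conj τ ρ)) f' →
    τ (val f m / val f (m + 1) / κ e ^ n) =
      val f' m / val f' (m + 1) / κ ((τ : ℂ →+* ℂ).comp e) ^ n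

/-- **The relation for the ratio**, for all Artin representations of the extensions `N` of `F` in
`𝒩`. -/
def RatioAll {C : Type} [Field C] (m : ℂ) (t : Ideal (𝓞 F) → ℕ → C) (b : ℝ)
    (κ : (C →+* ℂ) → ℂ) (𝒩 : Ext F → Prop) : Prop :=
  ∀ (e : C →+* ℂ) (τ : ℂ ≃+* ℂ) (E : Ext F), 𝒩 E → ∀ (n : ℕ) (ρ : Rep E n),
    Con τ (fun p k => e (t p k)) b ρ ∧ RatioDel m t b κ e τ ρ

/-- **The comparison of two characters `ψ`, `ψ'` of the same field `K`**, for the subfields `K` of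
the extensions `N` of `F` in `𝒩`: `K` is the fixed field of `H`, and `ρ`, `ρ'` are induced from `ψ`,
`ψ'`, so that `L(s, M ⊗ ρ)` is `L(s, M_K ⊗ ψ)` for the base change `M_K` of `M` to `K`. -/
def RatioQuo {C : Type} [Field C] (m : ℂ) (t : Ideal (𝓞 F) → ℕ → C) (b : ℝ)
    (𝒩 : Ext F → Prop) : Prop :=
  ∀ (e : C →+* ℂ) (τ : ℂ ≃+* ℂ) (E : Ext F), 𝒩 E → ∀ (H : Subgroup (Gal E)) (ψ ψ' : Gal E → ℂ)
    (n : ℕ) (ρ ρ' : Rep E n), IsInd H ψ ρ → IsInd H ψ' ρ' →
      Con τ (fun p k => e (t p k)) b ρ ∧ Con τ (fun p k => e (t p k)) b ρ' ∧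
      ∀ f₁ f₂ f₁' f₂' : ℂ → ℂ, IsL (fun p k => e (t p k)) b (chr ρ) f₁ →
        IsL (fun p k => e (t p k)) b (chr ρ') f₂ →
        IsL (fun p k => τ (e (t p k))) b (chr (conj τ ρ)) f₁' →
        IsL (fun p k => τ (e (t p k))) b (chr (conj τ ρ')) f₂' →
        τ (val f₁ m / val f₁ (m + 1) / (val f₂ m / val f₂ (m + 1))) =
          val f₁' m / val f₁' (m + 1) / (val f₂' m / val f₂' (m + 1))

end Pool.Agent.Run7.h810.DW
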