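import Mathlib
import Pool.Agent.Run7.h810.DW.Grp
import Pool.Agent.Run7.h810.DW.Ratio

/-!
# Ratios of successive values over a totally imaginary field
-/

set_option autoImplicit false
set_option linter.unusedSectionVars false
set_option linter.unusedVariables false

namespace Pool.Agent.Run7.h810.DW

open NumberField NumberField.ComplexEmbedding Pool.Agent.K4H74.ST
open Pool.Agent.Run7.h810.DF

variable {F : Type} [Field F] [NumberField F]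

lemma not_real (hF : IsTotallyComplex F) (σ : F →+* ℂ) : ¬ IsReal σ := by
  intro h
  have h1 : (InfinitePlace.mk σ).IsReal := ⟨σ, h, rfl⟩
  exact InfinitePlace.not_isReal_iff_isComplex.mpr (hF.isComplex (InfinitePlace.mk σ)) h1

/-- the exponents of the ratio -/
noncomputable def rw_ (m : ℂ) : ℂ →₀ ℤ := Finsupp.single m 1 + Finsupp.single (m + 1) (-1)

lemma mono_rw (m : ℂ) {f : ℂ → ℂ} (hf : ∀ z, val f z ≠ 0) :
    mono (rw_ m) f = val f m / val f (m + 1) := by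
  unfold mono rw_
  rw [Finsupp.prod_add_index']
  · rw [Finsupp.prod_single_index (by rw [zpow_zero]), Finsupp.prod_single_index (by rw [zpow_zero]),
      zpow_one, zpow_neg_one, div_eq_mul_inv]
  · intro a
    rw [zpow_zero]
  · intro a x y
    rw [zpow_add₀ (hf a)]

variable {C : Type} [Field C] {m : ℂ} {t : Ideal (𝓞 F) → ℕ → C} {b : ℝ} {κ : (C →+* ℂ) → ℂ}

lemma del_ratio (hF : IsTotallyComplex F) {e : C →+* ℂ} {τ : ℂ ≃+* ℂ} {E : Ext F} {n : ℕ}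
    (ρ : Rep E n) : Del (rw_ m) 0 t b κ (fun _ _ => 1) e τ ρ ↔ RatioDel m t b κ e τ ρ := by
  have key : ∀ (f f' : ℂ → ℂ) (u v : ℂ) (d : (F →+* ℂ) → ℕ),
      IsL (fun p k => e (t p k)) b (chr ρ) f →
      IsL (fun p k => τ (e (t p k))) b (chr (conj τ ρ)) f' →
      ((τ (mono (rw_ m) f / (u ^ (0 : ℤ) * κ e ^ n * ∏ σ : F →+* ℂ, (1 : ℂ) ^ d σ)) =
        mono (rw_ m) f' / (v ^ (0 : ℤ) * κ ((τ : ℂ →+* ℂ).comp e) ^ n *
          ∏ σ : F →+* ℂ, (1 : ℂ) ^ d σ)) ↔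
      τ (val f m / val f (m + 1) / κ e ^ n) =
        val f' m / val f' (m + 1) / κ ((τ : ℂ →+* ℂ).comp e) ^ n) := by
    intro f f' u v d hf hf'
    rw [mono_rw m hf.ne, mono_rw m hf'.ne]
    simp only [zpow_zero, one_mul, one_pow, Finset.prod_const_one, mul_one]
  constructor
  · intro h f f' hf hf'
    obtain ⟨Φ, hΦ⟩ := exists_sys E
    obtain ⟨x, hx⟩ := exists_res E
    obtain ⟨d, hd⟩ := exists_mlt ρ
    obtain ⟨d1, d2⟩ := hd.sys hΦ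
    exact (key f f' _ _ d hf hf').mp (h Φ x d f f' hΦ (hx Φ n ρ) d1 d2 hf hf')
  · intro h Φ x d f f' hΦ hx d1 d2 hf hf'
    exact (key f f' _ _ d hf hf').mpr (h f f' hf hf')

lemma quo_ratio (hF : IsTotallyComplex F) (𝒩 : Ext F → Prop) :
    Quo (rw_ m) 0 t b 𝒩 ↔ RatioQuo m t b 𝒩 := by
  constructor
  · intro h e τ E hE H ψ ψ' n ρ ρ' hρ hρ'
    obtain ⟨h1, h2, h3⟩ := h e τ E hE H ψ ψ' n ρ ρ' (fun φ c hc => absurd (real_of hc)
      (not_real hF _)) hρ hρ'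
    refine ⟨h1, h2, fun f₁ f₂ f₁' f₂' k1 k2 k3 k4 => ?_⟩
    obtain ⟨Φ, hΦ⟩ := exists_sys E
    obtain ⟨x, hx⟩ := exists_res E
    have h4 := h3 Φ x f₁ f₂ f₁' f₂' hΦ (hx Φ n ρ) (hx Φ n ρ') k1 k2 k3 k4
    rw [mono_rw m k1.ne, mono_rw m k2.ne, mono_rw m k3.ne, mono_rw m k4.ne, zpow_zero, zpow_zero,
      div_one, div_one] at h4
    exact h4
  · intro h e τ E hE H ψ ψ' n ρ ρ' _ hρ hρ'
    obtain ⟨h1, h2, h3⟩ := h e τ E hE H ψ ψ' n ρ ρ' hρ hρ'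
    refine ⟨h1, h2, fun Φ x f₁ f₂ f₁' f₂' hΦ hx hx' k1 k2 k3 k4 => ?_⟩
    rw [mono_rw m k1.ne, mono_rw m k2.ne, mono_rw m k3.ne, mono_rw m k4.ne, zpow_zero, zpow_zero,
      div_one, div_one]
    exact h3 f₁ f₂ f₁' f₂' k1 k2 k3 k4

theorem ratio (hF : IsTotallyComplex F) {𝒞 : (G : Type) → [Group G] → Prop} (h𝒞 : GrpClass 𝒞)
    (hκ : ∀ e, κ e ≠ 0) : RatioAll m t b κ (fun E => 𝒞 (Gal E)) ↔
      RatioQuo m t b (fun E => 𝒞 (Gal E)) ∧ ∃ (E : Ext F) (χ : Rep E 1), 𝒞 (Gal E) ∧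
        ∀ (e : C →+* ℂ) (τ : ℂ ≃+* ℂ), RatioDel m t b κ e τ χ := by
  have h1 := (bothA (F := F) t (rw_ m) 0 b h𝒞).2 κ (fun _ _ => 1) hκ (fun _ _ => one_ne_zero)
  rw [quo_ratio hF] at h1
  have h2 : DelAll (rw_ m) 0 t b κ (fun _ _ => 1) (fun E : Ext F => 𝒞 (Gal E)) ↔
      RatioAll m t b κ (fun E => 𝒞 (Gal E)) := by
    unfold DelAll RatioAll
    simp only [del_ratio hF]
  rw [← h2, h1]
  refine and_congr_right fun _ => ?_
  constructor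
  · intro h
    obtain ⟨E', ρ', hE', -, h3⟩ := h ⟨F⟩ (h𝒞.one _) 1
    exact ⟨E', ρ', hE', fun e τ => (del_ratio hF ρ').mp (h3 e τ)⟩
  · rintro ⟨E', χ, hE', h3⟩ E hE ρ
    refine ⟨E', χ, hE', fun φ φ' c c' _ hc _ => absurd (real_of hc) (not_real hF _),
      fun e τ => (del_ratio hF χ).mpr (h3 e τ)⟩

end Pool.Agent.Run7.h810.DW
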